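import Mathlib

/-!
# Centrally symmetric point sets: definitions and averaging (MP_4ed420_co)
-/

set_option autoImplicit false

open Finset

namespace Pool.Agent.CSym

/-- The plane. -/
abbrev V := ℝ × ℝ

/-- The determinant of two vectors of the plane. -/
def dt (x y : V) : ℝ := x.1 * y.2 - x.2 * y.1

theorem dt_add_right (x y z : V) : dt x (y + z) = dt x y + dt x z := by
  simp only [dt, Prod.fst_add, Prod.snd_add]; ring

theorem dt_smul_right (x y : V) (a : ℝ) : dt x (a • y) = a * dt x y := by
  simp only [dt, Prod.smul_fst, Prod.smul_snd, smul_eq_mul]; ring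

theorem dt_self (x : V) : dt x x = 0 := by simp only [dt]; ring

theorem dt_comm (x y : V) : dt x y = - dt y x := by simp only [dt]; ring

theorem dt_zero_right (x : V) : dt x 0 = 0 := by simp [dt]

theorem dt_sum_right {κ : Type*} (x : V) (s : Finset κ) (f : κ → V) :
    dt x (∑ k ∈ s, f k) = ∑ k ∈ s, dt x (f k) := by
  classical
  induction s using Finset.induction_on with
  | empty => simp [dt_zero_right]
  | insert a s ha ih => rw [sum_insert ha, sum_insert ha, dt_add_right, ih]

/-- The sign of a unit of `ℤ` as a real number. -/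
def sg (b : ℤˣ) : ℝ := ((b : ℤ) : ℝ)

theorem sg_mul (a b : ℤˣ) : sg (a * b) = sg a * sg b := by simp [sg]

theorem sg_one : sg 1 = 1 := by simp [sg]

theorem sg_neg (a : ℤˣ) : sg (-a) = - sg a := by simp [sg]

theorem sg_cases (a : ℤˣ) : sg a = 1 ∨ sg a = -1 := by
  rcases Int.units_eq_one_or a with h | h <;> simp [h, sg]

theorem sg_mul_self (a : ℤˣ) : sg a * sg a = 1 := by
  rcases sg_cases a with h | h <;> simp [h]

theorem abs_sg (a : ℤˣ) : |sg a| = 1 := by
  rcases sg_cases a with h | h <;> simp [h]

theorem sg_inj {a b : ℤˣ} (h : sg a = sg b) : a = b := by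
  unfold sg at h
  exact Units.ext (Int.cast_injective h)

variable {I : Type*}

/-- The points `±p_i`. -/
def pt (p : I → V) (x : I × ℤˣ) : V := sg x.2 • p x.1

/-- Twice the signed area of a triangle. -/
def ar (x y z : V) : ℝ := dt x y + dt y z + dt z x

/-- General position of the points `±p_i`: no three on a line. -/
def GP (p : I → V) : Prop :=
  ∀ x y z : I × ℤˣ, x ≠ y → y ≠ z → x ≠ z → ar (pt p x) (pt p y) (pt p z) ≠ 0

theorem GP.dt_ne {p : I → V} (h : GP p) {i j : I} (hij : i ≠ j) : dt (p i) (p j) ≠ 0 := by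
  have h1 := h (i, 1) (i, -1) (j, 1) (by simp) (by simp [hij]) (by simp [hij])
  intro h2
  apply h1
  simp only [ar, pt, sg_one, sg_neg, dt, Prod.smul_fst, Prod.smul_snd, smul_eq_mul] at h2 ⊢
  linear_combination (-2 : ℝ) * h2

theorem ar_eq_zero_of_dep {x y z : V} {a b c : ℝ} (h0 : a + b + c = 0)
    (h : a • x + b • y + c • z = 0) (hc : c ≠ 0) : ar x y z = 0 := by
  have h1 := congrArg Prod.fst h
  have h2 := congrArg Prod.snd h
  simp only [Prod.fst_add, Prod.snd_add, Prod.smul_fst, Prod.smul_snd, smul_eq_mul,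
    Prod.fst_zero, Prod.snd_zero] at h1 h2
  have h3 : c * ar x y z = 0 := by
    have ha : a = - b - c := by linarith
    subst ha
    simp only [ar, dt]
    linear_combination (x.2 - y.2) * h1 - (x.1 - y.1) * h2
  rcases mul_eq_zero.mp h3 with h4 | h4
  · exact absurd h4 hc
  · exact h4

section Avg

variable {G : Type*} [Group G] [Fintype G]

theorem avg_eq (B : G → Prop) [DecidablePred B] (H : Finset G) :
    H.card * #{s | B s} = ∑ s, #(H.filter fun h => B (h * s)) := by
  have h1 : ∀ h : G, #{s | B (h * s)} = #{s | B s} := by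
    intro h
    apply card_bij (fun s _ => h * s)
    · intro s hs
      simpa using hs
    · intro a _ b _ hab
      exact mul_left_cancel hab
    · intro b hb
      exact ⟨h⁻¹ * b, by simpa using hb, by simp⟩
  calc H.card * #{s | B s} = ∑ h ∈ H, #{s | B (h * s)} := by
        rw [sum_congr rfl fun h _ => h1 h, sum_const, smul_eq_mul]
    _ = ∑ h ∈ H, ∑ s, (if B (h * s) then 1 else 0) := by
        refine sum_congr rfl fun h _ => ?_
        rw [card_filter]
    _ = ∑ s, ∑ h ∈ H, (if B (h * s) then 1 else 0) := sum_comm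
    _ = ∑ s, #(H.filter fun h => B (h * s)) := by
        refine sum_congr rfl fun s _ => ?_
        rw [card_filter]

theorem avg_le (B : G → Prop) [DecidablePred B] (H : Finset G) (k : ℕ)
    (h : ∀ s, #(H.filter fun h => B (h * s)) ≤ k) :
    H.card * #{s | B s} ≤ k * Fintype.card G := by
  rw [avg_eq]
  calc ∑ s, #(H.filter fun h => B (h * s)) ≤ ∑ _s : G, k := sum_le_sum fun s _ => h s
    _ = k * Fintype.card G := by rw [sum_const, card_univ, smul_eq_mul, mul_comm]

theorem avg_ge (B : G → Prop) [DecidablePred B] (H : Finset G) (k : ℕ)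
    (h : ∀ s, k ≤ #(H.filter fun h => B (h * s))) :
    k * Fintype.card G ≤ H.card * #{s | B s} := by
  rw [avg_eq]
  calc k * Fintype.card G = ∑ _s : G, k := by
        rw [sum_const, card_univ, smul_eq_mul, mul_comm]
    _ ≤ ∑ s, #(H.filter fun h => B (h * s)) := sum_le_sum fun s _ => h s

end Avg

end Pool.Agent.CSym
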