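import Pool.Agent.CSym.Rainbow

/-!
# Centrally symmetric point sets: quadruples `a, -a, ±b, ±c`
-/

set_option autoImplicit false

open Finset

namespace Pool.Agent.CSym

/-- exactly one of the four numbers is negative, the others are positive -/
def OneNeg (α β γ δ : ℝ) : Prop :=
  (α < 0 ∧ 0 < β ∧ 0 < γ ∧ 0 < δ) ∨ (0 < α ∧ β < 0 ∧ 0 < γ ∧ 0 < δ) ∨
    (0 < α ∧ 0 < β ∧ γ < 0 ∧ 0 < δ) ∨ (0 < α ∧ 0 < β ∧ 0 < γ ∧ δ < 0)

theorem OneNeg.prod_neg {α β γ δ : ℝ} (h : OneNeg α β γ δ) : α * β * γ * δ < 0 := by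
  rcases h with ⟨h1, h2, h3, h4⟩ | ⟨h1, h2, h3, h4⟩ | ⟨h1, h2, h3, h4⟩ | ⟨h1, h2, h3, h4⟩
  · have := mul_pos h3 h4
    have := mul_neg_of_neg_of_pos h1 h2
    nlinarith
  · have := mul_pos h3 h4
    have := mul_neg_of_pos_of_neg h1 h2
    nlinarith
  · have := mul_pos h1 h2
    have := mul_neg_of_neg_of_pos h3 h4
    nlinarith
  · have := mul_pos h1 h2
    have := mul_neg_of_pos_of_neg h3 h4
    nlinarith

theorem oneNeg_of_prod_neg {α β γ δ : ℝ} (h0 : α + β + γ + δ = 0) (h : α * β * γ * δ < 0) :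
    OneNeg α β γ δ ∨ OneNeg (-α) (-β) (-γ) (-δ) := by
  have ha : α ≠ 0 := by rintro rfl; simp at h
  have hb : β ≠ 0 := by rintro rfl; simp at h
  have hc : γ ≠ 0 := by rintro rfl; simp at h
  have hd : δ ≠ 0 := by rintro rfl; simp at h
  unfold OneNeg
  rcases lt_or_gt_of_ne ha with ha | ha <;> rcases lt_or_gt_of_ne hb with hb | hb <;>
    rcases lt_or_gt_of_ne hc with hc | hc <;> rcases lt_or_gt_of_ne hd with hd | hd
  · linarith
  · right; right; right; right
    exact ⟨by linarith, by linarith, by linarith, by linarith⟩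
  · right; right; right; left
    exact ⟨by linarith, by linarith, by linarith, by linarith⟩
  · exfalso
    have h1 := mul_pos_of_neg_of_neg ha hb
    have h2 := mul_pos hc hd
    nlinarith [mul_pos h1 h2]
  · right; right; left
    exact ⟨by linarith, by linarith, by linarith, by linarith⟩
  · exfalso
    have h1 := mul_neg_of_neg_of_pos ha hb
    have h2 := mul_neg_of_neg_of_pos hc hd
    nlinarith [mul_pos_of_neg_of_neg h1 h2]
  · exfalso
    have h1 := mul_neg_of_neg_of_pos ha hb
    have h2 := mul_neg_of_pos_of_neg hc hd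
    nlinarith [mul_pos_of_neg_of_neg h1 h2]
  · left; left
    exact ⟨ha, hb, hc, hd⟩
  · right; left
    exact ⟨by linarith, by linarith, by linarith, by linarith⟩
  · exfalso
    have h1 := mul_neg_of_pos_of_neg ha hb
    have h2 := mul_neg_of_neg_of_pos hc hd
    nlinarith [mul_pos_of_neg_of_neg h1 h2]
  · exfalso
    have h1 := mul_neg_of_pos_of_neg ha hb
    have h2 := mul_neg_of_pos_of_neg hc hd
    nlinarith [mul_pos_of_neg_of_neg h1 h2]
  · left; right; left
    exact ⟨ha, hb, hc, hd⟩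
  · exfalso
    have h1 := mul_pos ha hb
    have h2 := mul_pos_of_neg_of_neg hc hd
    nlinarith [mul_pos h1 h2]
  · left; right; right; left
    exact ⟨ha, hb, hc, hd⟩
  · left; right; right; right
    exact ⟨ha, hb, hc, hd⟩
  · linarith

variable {I : Type*}

/-- the quadruple `a, -a, σ b, τ c` is not in convex position -/
def B3 (p : I → V) (a b c : I) (σ τ : ℤˣ) : Prop :=
  ∃ α β γ δ : ℝ, OneNeg α β γ δ ∧ α + β + γ + δ = 0 ∧
    (α - β) • p a + (γ * sg σ) • p b + (δ * sg τ) • p c = 0

/-- the criterion with the linear relation of the three vectors -/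
def K3 (p : I → V) (a b c : I) (σ τ : ℤˣ) : Prop :=
  ((dt (p c) (p a) * sg σ + dt (p a) (p b) * sg τ) ^ 2 - dt (p b) (p c) ^ 2) *
    ((dt (p c) (p a) * sg σ) * (dt (p a) (p b) * sg τ)) < 0

theorem relation (x y z : V) : dt y z • x + dt z x • y + dt x y • z = 0 := by
  ext
  · simp only [dt, Prod.fst_add, Prod.smul_fst, smul_eq_mul, Prod.fst_zero]; ring
  · simp only [dt, Prod.snd_add, Prod.smul_snd, smul_eq_mul, Prod.snd_zero]; ring

theorem B3_iff [DecidableEq I] {p : I → V} (hp : GP p) {a b c : I} (hab : a ≠ b) (hac : a ≠ c)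
    (hbc : b ≠ c) (σ τ : ℤˣ) : B3 p a b c σ τ ↔ K3 p a b c σ τ := by
  have dab := hp.dt_ne hab
  have dbc := hp.dt_ne hbc
  have dca := hp.dt_ne (Ne.symm hac)
  have hσ := sg_mul_self σ
  have hτ := sg_mul_self τ
  constructor
  · rintro ⟨α, β, γ, δ, hneg, h0, hrel⟩
    -- proportionality
    obtain ⟨t, t1, t2, t3⟩ := kernel3 hp hab hac hbc
      (u := fun j => if j = a then α - β else if j = b then γ * sg σ else δ * sg τ)
      (v := fun j => if j = a then dt (p b) (p c) else if j = b then dt (p c) (p a) else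
        dt (p a) (p b))
      (by simpa [Ne.symm hab, Ne.symm hac, Ne.symm hbc] using hrel)
      (by simpa [Ne.symm hab, Ne.symm hac, Ne.symm hbc] using relation (p a) (p b) (p c))
      (by left; simpa using dbc)
    simp only [if_true, Ne.symm hab, Ne.symm hac, Ne.symm hbc, if_false] at t1 t2 t3
    have hprod := hneg.prod_neg
    have eγ : γ = t * (dt (p c) (p a) * sg σ) := by
      linear_combination sg σ * t2 - γ * hσ
    have eδ : δ = t * (dt (p a) (p b) * sg τ) := by
      linear_combination sg τ * t3 - δ * hτ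
    have e4 : 4 * (α * β) = (γ + δ) ^ 2 - (α - β) ^ 2 := by
      have : α + β = - (γ + δ) := by linarith
      linear_combination (α + β - γ - δ) * this
    have key : 4 * (α * β * γ * δ) = t ^ 4 *
        (((dt (p c) (p a) * sg σ + dt (p a) (p b) * sg τ) ^ 2 - dt (p b) (p c) ^ 2) *
          ((dt (p c) (p a) * sg σ) * (dt (p a) (p b) * sg τ))) := by
      have e5 : 4 * (α * β * γ * δ) = (4 * (α * β)) * (γ * δ) := by ring
      rw [e5, e4, t1, eγ, eδ]
      ring
    unfold K3
    by_contra hcon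
    push Not at hcon
    have h4 : 0 ≤ t ^ 4 := by positivity
    have := mul_nonneg h4 hcon
    linarith
  · intro hK
    unfold K3 at hK
    set P := dt (p c) (p a) * sg σ with hP
    set R := dt (p a) (p b) * sg τ with hR
    set A := dt (p b) (p c) with hA
    have hrel := relation (p a) (p b) (p c)
    have hprod : ((A - P - R) / 2) * ((-A - P - R) / 2) * P * R < 0 := by
      have : ((A - P - R) / 2) * ((-A - P - R) / 2) * P * R = ((P + R) ^ 2 - A ^ 2) * (P * R) / 4 := by
        ring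
      rw [this]
      linarith
    have hsum : (A - P - R) / 2 + (-A - P - R) / 2 + P + R = 0 := by ring
    have e1 : P * sg σ = dt (p c) (p a) := by
      rw [hP, mul_assoc, hσ, mul_one]
    have e2 : R * sg τ = dt (p a) (p b) := by
      rw [hR, mul_assoc, hτ, mul_one]
    have e3 : (A - P - R) / 2 - (-A - P - R) / 2 = A := by ring
    rcases oneNeg_of_prod_neg hsum hprod with h | h
    · refine ⟨_, _, _, _, h, hsum, ?_⟩
      rw [e1, e2, e3]
      exact hrel
    · refine ⟨_, _, _, _, h, by linarith, ?_⟩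
      have e4 : -((A - P - R) / 2) - -((-A - P - R) / 2) = -A := by ring
      rw [neg_mul, neg_mul, e1, e2, e4, neg_smul, neg_smul, neg_smul, ← neg_add, ← neg_add, hrel,
        neg_zero]

theorem K3_flip {p : I → V} (hp : GP p) {a b c : I} (hab : a ≠ b) (hac : a ≠ c) (σ τ : ℤˣ) :
    ¬ (K3 p a b c σ τ ∧ K3 p a b c σ (-τ)) := by
  rintro ⟨h1, h2⟩
  unfold K3 at h1 h2
  rw [sg_neg] at h2
  have dab := hp.dt_ne hab
  have dca := hp.dt_ne (Ne.symm hac)
  have hP : dt (p c) (p a) * sg σ ≠ 0 := by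
    refine mul_ne_zero dca ?_
    rcases sg_cases σ with h | h <;> rw [h] <;> norm_num
  have hR : dt (p a) (p b) * sg τ ≠ 0 := by
    refine mul_ne_zero dab ?_
    rcases sg_cases τ with h | h <;> rw [h] <;> norm_num
  set P := dt (p c) (p a) * sg σ
  set R := dt (p a) (p b) * sg τ
  rw [mul_neg] at h2
  have h3 : 0 < (P * R) ^ 2 := by positivity
  nlinarith

/-- `a` is inside the parallelogram `±b, ±c` -/
def Nest (p : I → V) (a b c : I) : Prop :=
  ∃ x y : ℝ, |x| + |y| < 1 ∧ p a = x • p b + y • p c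

/-- one of the three pairs is inside the parallelogram of the other two -/
def Nested (p : I → V) (a b c : I) : Prop := Nest p a b c ∨ Nest p b c a ∨ Nest p c a b

theorem Nest.dt_lt {p : I → V} (hp : GP p) {a b c : I} (hbc : b ≠ c)
    (h : Nest p a b c) : |dt (p c) (p a)| + |dt (p a) (p b)| < |dt (p b) (p c)| := by
  obtain ⟨x, y, hxy, he⟩ := h
  have dbc := abs_pos.mpr (hp.dt_ne hbc)
  have e1 : dt (p c) (p a) = - x * dt (p b) (p c) := by
    rw [he, dt_add_right, dt_smul_right, dt_smul_right, dt_self, dt_comm (p c)]; ring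
  have e2 : dt (p a) (p b) = - y * dt (p b) (p c) := by
    rw [dt_comm, he, dt_add_right, dt_smul_right, dt_smul_right, dt_self]; ring
  rw [e1, e2, abs_mul, abs_mul, abs_neg, abs_neg, ← add_mul]
  nlinarith

theorem nest_iff {p : I → V} (hp : GP p) {a b c : I} (hbc : b ≠ c) :
    Nest p a b c ↔ |dt (p c) (p a)| + |dt (p a) (p b)| < |dt (p b) (p c)| := by
  refine ⟨fun h => h.dt_lt hp hbc, fun h => ?_⟩
  have dbc := hp.dt_ne hbc
  have dbc' := abs_pos.mpr dbc
  refine ⟨- dt (p c) (p a) / dt (p b) (p c), - dt (p a) (p b) / dt (p b) (p c), ?_, ?_⟩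
  · rw [abs_div, abs_div, abs_neg, abs_neg, ← add_div, div_lt_one dbc']
    exact h
  · have hrel := relation (p a) (p b) (p c)
    have e : p a = (dt (p b) (p c))⁻¹ • (dt (p b) (p c) • p a) := by
      rw [smul_smul, inv_mul_cancel₀ dbc, one_smul]
    have e2 : dt (p b) (p c) • p a = - (dt (p c) (p a) • p b) - dt (p a) (p b) • p c := by
      have h3 : dt (p b) (p c) • p a + (dt (p c) (p a) • p b + dt (p a) (p b) • p c) = 0 := by
        rw [← add_assoc]; exact hrel
      rw [eq_neg_of_add_eq_zero_left h3]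
      abel
    conv_lhs => rw [e, e2]
    rw [smul_sub, smul_neg, smul_smul, smul_smul, sub_eq_add_neg, ← neg_smul, ← neg_smul]
    congr 2
    · ring
    · ring

theorem sq_le_of_abs {x y : ℝ} (h : |x| ≤ |y|) : x ^ 2 ≤ y ^ 2 := sq_le_sq.mpr h

/-- In a nested triple one of the two choices is not convex. -/
theorem K3_of_nested {p : I → V} (hp : GP p) {a b c : I} (hab : a ≠ b) (hac : a ≠ c)
    (hbc : b ≠ c) (h : Nested p a b c) (σ τ : ℤˣ) : K3 p a b c σ τ ∨ K3 p a b c σ (-τ) := by
  have dab := hp.dt_ne hab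
  have dca := hp.dt_ne (Ne.symm hac)
  have hP : dt (p c) (p a) * sg σ ≠ 0 := by
    refine mul_ne_zero dca ?_
    rcases sg_cases σ with h | h <;> rw [h] <;> norm_num
  have hR : dt (p a) (p b) * sg τ ≠ 0 := by
    refine mul_ne_zero dab ?_
    rcases sg_cases τ with h | h <;> rw [h] <;> norm_num
  have aP : |dt (p c) (p a) * sg σ| = |dt (p c) (p a)| := by rw [abs_mul, abs_sg, mul_one]
  have aR : |dt (p a) (p b) * sg τ| = |dt (p a) (p b)| := by rw [abs_mul, abs_sg, mul_one]
  unfold K3
  rw [sg_neg, mul_neg]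
  unfold Nested at h
  rw [nest_iff hp hbc, nest_iff hp (Ne.symm hac), nest_iff hp hab] at h
  rw [← aP, ← aR] at h
  set P := dt (p c) (p a) * sg σ
  set R := dt (p a) (p b) * sg τ
  set A := dt (p b) (p c)
  have hPR : P * R ≠ 0 := mul_ne_zero hP hR
  rcases h with h | h | h
  · -- `|P| + |R| < |A|`
    have h1 : (P + R) ^ 2 < A ^ 2 := by
      rw [← sq_abs A]
      refine (sq_le_of_abs (y := |P| + |R|) ?_).trans_lt ?_
      · rw [abs_of_nonneg (by positivity : 0 ≤ |P| + |R|)]; exact abs_add_le _ _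
      · exact pow_lt_pow_left₀ h (by positivity) two_ne_zero
    have h2 : (P + -R) ^ 2 < A ^ 2 := by
      rw [← sq_abs A]
      refine (sq_le_of_abs (y := |P| + |R|) ?_).trans_lt ?_
      · rw [abs_of_nonneg (by positivity : 0 ≤ |P| + |R|)]
        refine (abs_add_le _ _).trans ?_
        rw [abs_neg]
      · exact pow_lt_pow_left₀ h (by positivity) two_ne_zero
    rcases lt_or_gt_of_ne hPR with h3 | h3
    · right
      rw [mul_neg]
      nlinarith
    · left
      nlinarith
  · -- `|R| + |A| < |P|`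
    have h5 : |A| < |P| - |R| := by linarith
    have h1 : A ^ 2 < (P + R) ^ 2 := by
      rw [← sq_abs A, ← sq_abs (P + R)]
      refine pow_lt_pow_left₀ (h5.trans_le ?_) (abs_nonneg _) two_ne_zero
      exact abs_sub_abs_le_abs_add P R
    have h2 : A ^ 2 < (P + -R) ^ 2 := by
      rw [← sq_abs A, ← sq_abs (P + -R)]
      refine pow_lt_pow_left₀ (h5.trans_le ?_) (abs_nonneg _) two_ne_zero
      have := abs_sub_abs_le_abs_add P (-R)
      rwa [abs_neg] at this
    rcases lt_or_gt_of_ne hPR with h3 | h3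
    · left
      nlinarith
    · right
      rw [mul_neg]
      nlinarith
  · -- `|A| + |P| < |R|`
    have h5 : |A| < |R| - |P| := by linarith
    have h1 : A ^ 2 < (P + R) ^ 2 := by
      rw [← sq_abs A, ← sq_abs (P + R)]
      refine pow_lt_pow_left₀ (h5.trans_le ?_) (abs_nonneg _) two_ne_zero
      have := abs_sub_abs_le_abs_add R P
      rwa [add_comm R P] at this
    have h2 : A ^ 2 < (P + -R) ^ 2 := by
      rw [← sq_abs A, ← sq_abs (P + -R)]
      refine pow_lt_pow_left₀ (h5.trans_le ?_) (abs_nonneg _) two_ne_zero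
      have := abs_sub_abs_le_abs_add (-R) P
      rwa [abs_neg, add_comm (-R) P] at this
    rcases lt_or_gt_of_ne hPR with h3 | h3
    · left
      nlinarith
    · right
      rw [mul_neg]
      nlinarith

/-- In a triple that is not nested all choices are convex. -/
theorem not_K3_of_not_nested {p : I → V} (hp : GP p) {a b c : I} (hab : a ≠ b) (hac : a ≠ c)
    (hbc : b ≠ c) (h : ¬ Nested p a b c) (σ τ : ℤˣ) : ¬ K3 p a b c σ τ := by
  have aP : |dt (p c) (p a) * sg σ| = |dt (p c) (p a)| := by rw [abs_mul, abs_sg, mul_one]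
  have aR : |dt (p a) (p b) * sg τ| = |dt (p a) (p b)| := by rw [abs_mul, abs_sg, mul_one]
  unfold Nested at h
  rw [nest_iff hp hbc, nest_iff hp (Ne.symm hac), nest_iff hp hab] at h
  rw [← aP, ← aR] at h
  unfold K3
  set P := dt (p c) (p a) * sg σ
  set R := dt (p a) (p b) * sg τ
  set A := dt (p b) (p c)
  push Not at h
  obtain ⟨h1, h2, h3⟩ := h
  rw [not_lt]
  rcases le_total 0 (P * R) with h4 | h4
  · have h5 : |P + R| = |P| + |R| := by
      rw [abs_add_eq_add_abs_iff]
      rcases mul_nonneg_iff.mp h4 with h | h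
      · exact Or.inl h
      · exact Or.inr h
    have h6 : A ^ 2 ≤ (P + R) ^ 2 := sq_le_of_abs (by rw [h5]; exact h1)
    exact mul_nonneg (by linarith) h4
  · have h6 : (P + R) ^ 2 ≤ A ^ 2 := by
      have h7 : (P + R) ^ 2 = (|P| - |R|) ^ 2 := by
        have : |P| * |R| = - (P * R) := by rw [← abs_mul, abs_of_nonpos h4]
        nlinarith [sq_abs P, sq_abs R]
      rw [h7]
      refine sq_le_of_abs ?_
      rw [abs_le]
      constructor <;> linarith
    exact mul_nonneg_of_nonpos_of_nonpos (by linarith) h4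

end Pool.Agent.CSym
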