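import Pool.Agent.CSym.Rainbow2
import Pool.Agent.CSym.Triple

/-!
# Centrally symmetric point sets: the global count
-/

set_option autoImplicit false

open Finset

namespace Pool.Agent.CSym

variable {I : Type*} [DecidableEq I]

/-- The quadruple of points with indices in `Q` has a point inside the triangle of the others. -/
def Bad (p : I → V) (Q : Finset (I × ℤˣ)) : Prop :=
  ∃ x ∈ Q, ∃ c : I × ℤˣ → ℝ, (∀ y ∈ Q, y ≠ x → 0 < c y) ∧ c x < 0 ∧ ∑ y ∈ Q, c y = 0 ∧
    ∑ y ∈ Q, c y • pt p y = 0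

omit [DecidableEq I] in
/-- a sign change of the pairs -/
def act (e : I → ℤˣ) : (I × ℤˣ) ≃ (I × ℤˣ) where
  toFun x := (x.1, e x.1 * x.2)
  invFun x := (x.1, (e x.1)⁻¹ * x.2)
  left_inv x := Prod.ext rfl (inv_mul_cancel_left (e x.1) x.2)
  right_inv x := Prod.ext rfl (mul_inv_cancel_left (e x.1) x.2)

omit [DecidableEq I] in
theorem act_apply (e : I → ℤˣ) (x : I × ℤˣ) : act e x = (x.1, e x.1 * x.2) := rfl

omit [DecidableEq I] in
theorem pt_one (p : I → V) (a : I) : pt p (a, 1) = p a := by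
  rw [pt]; simp only [sg_one, one_smul]

omit [DecidableEq I] in
theorem pt_neg_one (p : I → V) (a : I) : pt p (a, -1) = - p a := by
  rw [pt]; simp only [sg_neg, sg_one, neg_smul, one_smul]

/-! ### the three types of quadruples -/

/-- all four points from different pairs -/
def QR (S : Finset I) (b : I → ℤˣ) : Finset (I × ℤˣ) := S.image fun i => (i, b i)

/-- `a, -a, σ b, τ c` -/
def QT (a b c : I) (σ τ : ℤˣ) : Finset (I × ℤˣ) := {(a, 1), (a, -1), (b, σ), (c, τ)}

omit [DecidableEq I] in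
/-- two pairs -/
def QP (S : Finset I) : Finset (I × ℤˣ) := S ×ˢ univ

theorem act_QR (e : I → ℤˣ) (S : Finset I) (b : I → ℤˣ) :
    (QR S b).map (act e).toEmbedding = QR S (e * b) := by
  rw [QR, QR, map_eq_image, image_image]
  rfl

theorem act_QT (e : I → ℤˣ) (a b c : I) (σ τ : ℤˣ) :
    (QT a b c σ τ).map (act e).toEmbedding = QT a b c (e b * σ) (e c * τ) := by
  rw [QT, QT, map_insert, map_insert, map_insert, map_singleton]
  simp only [Equiv.coe_toEmbedding, act, Equiv.coe_fn_mk]
  rcases Int.units_eq_one_or (e a) with h | h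
  · simp [h]
  · rw [h]
    simp only [mul_one, neg_one_mul, neg_neg]
    rw [insert_comm]

omit [DecidableEq I] in
theorem act_QP (e : I → ℤˣ) (S : Finset I) :
    (QP S).map (act e).toEmbedding = QP S := by
  ext ⟨i, b⟩
  rw [QP, mem_map]
  constructor
  · rintro ⟨⟨j, b'⟩, hj, h⟩
    rw [Equiv.coe_toEmbedding] at h
    have h1 : j = i := congrArg Prod.fst h
    rw [mem_product] at hj ⊢
    exact ⟨h1 ▸ hj.1, mem_univ _⟩
  · intro h
    rw [mem_product] at h
    refine ⟨(i, (e i)⁻¹ * b), ?_, ?_⟩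
    · rw [mem_product]; exact ⟨h.1, mem_univ _⟩
    · rw [Equiv.coe_toEmbedding, act_apply]
      exact Prod.ext rfl (mul_inv_cancel_left (e i) b)

theorem classify (Q : Finset (I × ℤˣ)) (hQ : Q.card = 4) :
    (∃ S b, S.card = 4 ∧ Q = QR S b) ∨
    (∃ a b c σ τ, a ≠ b ∧ a ≠ c ∧ b ≠ c ∧ Q = QT a b c σ τ) ∨
    ∃ S, S.card = 2 ∧ Q = QP S := by
  by_cases hinj : Set.InjOn Prod.fst (Q : Set (I × ℤˣ))
  · left
    refine ⟨Q.image Prod.fst, fun i => if (i, 1) ∈ Q then 1 else -1, ?_, ?_⟩
    · rw [card_image_of_injOn hinj, hQ]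
    · ext ⟨i, b⟩
      rw [QR, mem_image]
      constructor
      · intro h
        refine ⟨i, mem_image.mpr ⟨_, h, rfl⟩, ?_⟩
        rcases Int.units_eq_one_or b with rfl | rfl
        · rw [if_pos h]
        · rw [if_neg]
          intro h'
          have := hinj h h' rfl
          simp at this
      · rintro ⟨j, hj, h⟩
        obtain ⟨⟨k, b'⟩, hk, rfl⟩ := mem_image.mp hj
        rw [Prod.mk.injEq] at h
        obtain ⟨h1, h2⟩ := h
        simp only at h1 h2
        subst h1
        split_ifs at h2 with h3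
        · rw [← h2]; exact h3
        · rcases Int.units_eq_one_or b' with rfl | rfl
          · exact absurd hk h3
          · rw [← h2]; exact hk
  · right
    have hex : ∃ a : I, (a, 1) ∈ Q ∧ (a, -1) ∈ Q := by
      unfold Set.InjOn at hinj
      push Not at hinj
      obtain ⟨⟨i, b⟩, h1, ⟨j, b'⟩, h2, h3, h4⟩ := hinj
      simp only at h3
      subst h3
      rcases Int.units_eq_one_or b with rfl | rfl <;> rcases Int.units_eq_one_or b' with rfl | rfl
      · exact absurd rfl h4
      · exact ⟨i, h1, h2⟩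
      · exact ⟨i, h2, h1⟩
      · exact absurd rfl h4
    obtain ⟨a, ha1, ha2⟩ := hex
    have hne : ((a, 1) : I × ℤˣ) ≠ (a, -1) := by simp
    have hcard : ((Q.erase (a, 1)).erase (a, -1)).card = 2 := by
      rw [card_erase_of_mem (mem_erase.mpr ⟨Ne.symm hne, ha2⟩), card_erase_of_mem ha1, hQ]
    obtain ⟨⟨b, σ⟩, ⟨c, τ⟩, hbc, hset⟩ := card_eq_two.mp hcard
    have hQe : Q = {(a, 1), (a, -1), (b, σ), (c, τ)} := by
      rw [← hset, insert_erase (mem_erase.mpr ⟨Ne.symm hne, ha2⟩), insert_erase ha1]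
    have hb : (b, σ) ∈ (Q.erase (a, 1)).erase (a, -1) := by rw [hset]; simp
    have hc : (c, τ) ∈ (Q.erase (a, 1)).erase (a, -1) := by rw [hset]; simp
    have hb1 := ne_of_mem_erase hb
    have hb2 := ne_of_mem_erase (mem_of_mem_erase hb)
    have hc1 := ne_of_mem_erase hc
    have hc2 := ne_of_mem_erase (mem_of_mem_erase hc)
    have hab : a ≠ b := by
      rintro rfl
      rcases Int.units_eq_one_or σ with rfl | rfl
      · exact hb2 rfl
      · exact hb1 rfl
    have hac : a ≠ c := by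
      rintro rfl
      rcases Int.units_eq_one_or τ with rfl | rfl
      · exact hc2 rfl
      · exact hc1 rfl
    by_cases hbc' : b = c
    · right
      subst hbc'
      refine ⟨{a, b}, card_pair hab, ?_⟩
      rw [hQe]
      ext ⟨i, s⟩
      rw [QP, mem_product]
      simp only [mem_insert, mem_singleton, mem_univ, and_true, Prod.mk.injEq]
      rcases Int.units_eq_one_or s with rfl | rfl <;>
        rcases Int.units_eq_one_or σ with rfl | rfl <;>
          rcases Int.units_eq_one_or τ with rfl | rfl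
      all_goals first | exact absurd rfl hbc | skip
      all_goals simp
    · left
      exact ⟨a, b, c, σ, τ, hab, hac, hbc', hQe⟩

theorem QR_ne_QP {S : Finset I} {b : I → ℤˣ} (hS : S.card = 4) {S' : Finset I}
    (hS' : S'.card = 2) : QR S b ≠ QP S' := by
  intro h
  have h1 : (QR S b).image Prod.fst = S := by
    rw [QR, image_image]
    exact image_id
  have h2 : (QP S').image Prod.fst = S' := by
    rw [QP]
    ext i
    simp
  rw [h, h2] at h1
  rw [h1, hS] at hS'
  omega

theorem QT_ne_QP {a b c : I} {σ τ : ℤˣ} (hab : a ≠ b) (hac : a ≠ c) (hbc : b ≠ c)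
    {S' : Finset I} (hS' : S'.card = 2) : QT a b c σ τ ≠ QP S' := by
  intro h
  have h2 : (QP S').image Prod.fst = S' := by
    rw [QP]
    ext i
    simp
  have h1 : (QT a b c σ τ).image Prod.fst = {a, b, c} := by
    rw [QT]
    ext i
    simp
  rw [h, h2] at h1
  have h3 : ({a, b, c} : Finset I).card = 3 := card_eq_three.mpr ⟨a, b, c, hab, hac, hbc, rfl⟩
  rw [h1, h3] at hS'
  omega

theorem sum_QR {W : Type*} [AddCommMonoid W] (S : Finset I) (b : I → ℤˣ) (f : I × ℤˣ → W) :
    ∑ y ∈ QR S b, f y = ∑ i ∈ S, f (i, b i) := by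
  rw [QR, sum_image]
  intro i _ j _ h
  exact congrArg Prod.fst h

theorem bad_QR (p : I → V) (S : Finset I) (b : I → ℤˣ) :
    Bad p (QR S b) ↔ ∃ i ∈ S, Br p S i b := by
  constructor
  · rintro ⟨x, hx, c, c1, c2, c3, c4⟩
    obtain ⟨i, hi, rfl⟩ := mem_image.mp hx
    refine ⟨i, hi, fun j => c (j, b j), ?_, c2, ?_, ?_⟩
    · intro j hj hji
      exact c1 _ (mem_image.mpr ⟨j, hj, rfl⟩) fun h => hji (congrArg Prod.fst h)
    · rw [sum_QR] at c3
      exact c3
    · rw [sum_QR] at c4
      rw [← c4]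
      exact sum_congr rfl fun j _ => by rw [pt, mul_smul]
  · rintro ⟨i, hi, c, c1, c2, c3, c4⟩
    refine ⟨(i, b i), mem_image.mpr ⟨i, hi, rfl⟩, fun y => c y.1, ?_, c2, ?_, ?_⟩
    · intro y hy hyi
      obtain ⟨j, hj, rfl⟩ := mem_image.mp hy
      refine c1 j hj fun h => hyi ?_
      rw [h]
    · rw [sum_QR]
      exact c3
    · rw [sum_QR]
      rw [← c4]
      exact sum_congr rfl fun j _ => by rw [pt, mul_smul]

theorem sum_QT {W : Type*} [AddCommMonoid W] {a b c : I} {σ τ : ℤˣ} (hab : a ≠ b) (hac : a ≠ c)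
    (hbc : b ≠ c) (f : I × ℤˣ → W) :
    ∑ y ∈ QT a b c σ τ, f y = f (a, 1) + (f (a, -1) + (f (b, σ) + f (c, τ))) := by
  rw [QT, sum_insert, sum_insert, sum_insert, sum_singleton]
  · simp [hbc]
  · simp [hab, hac]
  · simp [hab, hac]

theorem bad_QT (p : I → V) {a b c : I} {σ τ : ℤˣ} (hab : a ≠ b) (hac : a ≠ c) (hbc : b ≠ c) :
    Bad p (QT a b c σ τ) ↔ B3 p a b c σ τ := by
  have ma : ((a, 1) : I × ℤˣ) ∈ QT a b c σ τ := by simp [QT]
  have ma' : ((a, -1) : I × ℤˣ) ∈ QT a b c σ τ := by simp [QT]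
  have mb : ((b, σ) : I × ℤˣ) ∈ QT a b c σ τ := by simp [QT]
  have mc : ((c, τ) : I × ℤˣ) ∈ QT a b c σ τ := by simp [QT]
  have n1 : ((a, 1) : I × ℤˣ) ≠ (a, -1) := by simp
  have n2 : ((a, 1) : I × ℤˣ) ≠ (b, σ) := by simp [hab]
  have n3 : ((a, 1) : I × ℤˣ) ≠ (c, τ) := by simp [hac]
  have n4 : ((a, -1) : I × ℤˣ) ≠ (b, σ) := by simp [hab]
  have n5 : ((a, -1) : I × ℤˣ) ≠ (c, τ) := by simp [hac]
  have n6 : ((b, σ) : I × ℤˣ) ≠ (c, τ) := by simp [hbc]
  constructor
  · rintro ⟨x, hx, c', c1, c2, c3, c4⟩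
    rw [sum_QT hab hac hbc] at c3 c4
    refine ⟨c' (a, 1), c' (a, -1), c' (b, σ), c' (c, τ), ?_, by linarith, ?_⟩
    · rw [QT, mem_insert, mem_insert, mem_insert, mem_singleton] at hx
      rcases hx with rfl | rfl | rfl | rfl
      · left
        exact ⟨c2, c1 _ ma' (Ne.symm n1), c1 _ mb (Ne.symm n2), c1 _ mc (Ne.symm n3)⟩
      · right; left
        exact ⟨c1 _ ma n1, c2, c1 _ mb (Ne.symm n4), c1 _ mc (Ne.symm n5)⟩
      · right; right; left
        exact ⟨c1 _ ma n2, c1 _ ma' n4, c2, c1 _ mc (Ne.symm n6)⟩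
      · right; right; right
        exact ⟨c1 _ ma n3, c1 _ ma' n5, c1 _ mb n6, c2⟩
    · rw [← c4, pt_one, pt_neg_one, smul_neg, sub_smul]
      simp only [pt, smul_smul]
      abel
  · rintro ⟨α, β, γ, δ, hneg, h0, hrel⟩
    set f : I × ℤˣ → ℝ := fun y => if y = (a, 1) then α else if y = (a, -1) then β else
      if y = (b, σ) then γ else δ with hf
    have f1 : f (a, 1) = α := by simp [hf]
    have f2 : f (a, -1) = β := by rw [hf]; beta_reduce; rw [if_neg (Ne.symm n1), if_pos rfl]
    have f3 : f (b, σ) = γ := by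
      rw [hf]; beta_reduce; rw [if_neg (Ne.symm n2), if_neg (Ne.symm n4), if_pos rfl]
    have f4 : f (c, τ) = δ := by
      rw [hf]; beta_reduce; rw [if_neg (Ne.symm n3), if_neg (Ne.symm n5), if_neg (Ne.symm n6)]
    have hsum : ∑ y ∈ QT a b c σ τ, f y = 0 := by
      rw [sum_QT hab hac hbc, f1, f2, f3, f4]
      linarith
    have hsum2 : ∑ y ∈ QT a b c σ τ, f y • pt p y = 0 := by
      rw [sum_QT hab hac hbc, f1, f2, f3, f4, pt_one, pt_neg_one, smul_neg, ← hrel, sub_smul]
      simp only [pt, smul_smul]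
      abel
    have hall : ∀ (x : I × ℤˣ) (P : I × ℤˣ → Prop), (x ≠ (a, 1) → P (a, 1)) →
        (x ≠ (a, -1) → P (a, -1)) → (x ≠ (b, σ) → P (b, σ)) → (x ≠ (c, τ) → P (c, τ)) →
        ∀ y ∈ QT a b c σ τ, y ≠ x → P y := by
      intro x P h1 h2 h3 h4 y hy hyx
      rw [QT, mem_insert, mem_insert, mem_insert, mem_singleton] at hy
      rcases hy with rfl | rfl | rfl | rfl
      · exact h1 (Ne.symm hyx)
      · exact h2 (Ne.symm hyx)
      · exact h3 (Ne.symm hyx)
      · exact h4 (Ne.symm hyx)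
    rcases hneg with ⟨h1, h2, h3, h4⟩ | ⟨h1, h2, h3, h4⟩ | ⟨h1, h2, h3, h4⟩ | ⟨h1, h2, h3, h4⟩
    · refine ⟨(a, 1), ma, f, ?_, by rw [f1]; exact h1, hsum, hsum2⟩
      exact hall _ (fun y => 0 < f y) (fun h => absurd rfl h) (fun _ => by rw [f2]; exact h2)
        (fun _ => by rw [f3]; exact h3) (fun _ => by rw [f4]; exact h4)
    · refine ⟨(a, -1), ma', f, ?_, by rw [f2]; exact h2, hsum, hsum2⟩
      exact hall _ (fun y => 0 < f y) (fun _ => by rw [f1]; exact h1) (fun h => absurd rfl h)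
        (fun _ => by rw [f3]; exact h3) (fun _ => by rw [f4]; exact h4)
    · refine ⟨(b, σ), mb, f, ?_, by rw [f3]; exact h3, hsum, hsum2⟩
      exact hall _ (fun y => 0 < f y) (fun _ => by rw [f1]; exact h1)
        (fun _ => by rw [f2]; exact h2) (fun h => absurd rfl h) (fun _ => by rw [f4]; exact h4)
    · refine ⟨(c, τ), mc, f, ?_, by rw [f4]; exact h4, hsum, hsum2⟩
      exact hall _ (fun y => 0 < f y) (fun _ => by rw [f1]; exact h1)
        (fun _ => by rw [f2]; exact h2) (fun _ => by rw [f3]; exact h3) (fun h => absurd rfl h)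

theorem not_bad_QP {p : I → V} (hp : GP p) {S : Finset I} (hS : S.card = 2) :
    ¬ Bad p (QP S) := by
  obtain ⟨a, b, hab, rfl⟩ := card_eq_two.mp hS
  rintro ⟨x, hx, c, c1, c2, c3, c4⟩
  have hu : (univ : Finset ℤˣ) = {1, -1} := by decide
  have hne : (1 : ℤˣ) ≠ -1 := by decide
  rw [QP, sum_product, sum_pair hab, hu, sum_pair hne, sum_pair hne] at c3 c4
  rw [pt_one, pt_neg_one, pt_one, pt_neg_one, smul_neg, smul_neg] at c4
  have e1 : (c (a, 1) - c (a, -1)) • p a + (c (b, 1) - c (b, -1)) • p b = 0 := by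
    rw [← c4, sub_smul, sub_smul]; abel
  have dab := hp.dt_ne hab
  have e2 : c (a, 1) = c (a, -1) := by
    have h := congrArg (dt (p b)) e1
    rw [dt_add_right, dt_smul_right, dt_smul_right, dt_self, dt_zero_right, mul_zero, add_zero,
      dt_comm] at h
    rcases mul_eq_zero.mp h with h | h
    · linarith
    · exact absurd (neg_eq_zero.mp h) dab
  have e3 : c (b, 1) = c (b, -1) := by
    have h := congrArg (dt (p a)) e1
    rw [dt_add_right, dt_smul_right, dt_smul_right, dt_self, dt_zero_right, mul_zero,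
      zero_add] at h
    rcases mul_eq_zero.mp h with h | h
    · linarith
    · exact absurd h dab
  have m : ∀ (i : I) (s : ℤˣ), i = a ∨ i = b → (i, s) ∈ QP ({a, b} : Finset I) := by
    intro i s h
    rw [QP, mem_product]
    exact ⟨by simpa using h, mem_univ _⟩
  rw [QP, mem_product, mem_insert, mem_singleton] at hx
  obtain ⟨i, s⟩ := x
  have hpair : ∀ i, i = a ∨ i = b → c (i, 1) = c (i, -1) := by
    rintro i (rfl | rfl)
    · exact e2
    · exact e3
  have h5 : c (i, -s) = c (i, s) := by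
    rcases Int.units_eq_one_or s with rfl | rfl
    · exact (hpair i hx.1).symm
    · rw [neg_neg]; exact hpair i hx.1
  have h6 : 0 < c (i, -s) := by
    refine c1 _ (m i _ hx.1) ?_
    intro h
    have := congrArg Prod.snd h
    rcases Int.units_eq_one_or s with rfl | rfl <;> simp at this
  rw [h5] at h6
  exact absurd h6 (not_lt.mpr c2.le)

/-! ### counting -/

section Fin

variable [Fintype I]

omit [DecidableEq I] [Fintype I] in
theorem card_mul_left {G : Type*} [Group G] [Fintype G] (B : G → Prop) [DecidablePred B] (b : G) :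
    #{e | B (e * b)} = #{e | B e} := by
  apply card_bij (fun s _ => s * b)
  · intro s hs
    simpa using hs
  · intro a _ c _ hab
    exact mul_right_cancel hab
  · intro c hc
    exact ⟨c * b⁻¹, by simpa using hc, by simp⟩

open Classical in
/-- the number of sign changes that make the quadruple bad -/
noncomputable def FF (p : I → V) (Q : Finset (I × ℤˣ)) : ℕ :=
  #{e : I → ℤˣ | Bad p (Q.map (act e).toEmbedding)}

theorem FF_QR (p : I → V) (S : Finset I) (b : I → ℤˣ)
    [DecidablePred fun s : I → ℤˣ => ∃ i ∈ S, Br p S i s] :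
    FF p (QR S b) = #{s : I → ℤˣ | ∃ i ∈ S, Br p S i s} := by
  classical
  rw [FF]
  have h := card_mul_left (fun s : I → ℤˣ => ∃ i ∈ S, Br p S i s) b
  refine Eq.trans ?_ h
  congr 1
  ext e
  rw [mem_filter, mem_filter, act_QR, bad_QR]

open Classical in
theorem FF_QT {p : I → V} (hp : GP p) {a b c : I} (σ τ : ℤˣ) (hab : a ≠ b) (hac : a ≠ c)
    (hbc : b ≠ c) : FF p (QT a b c σ τ) = #{e : I → ℤˣ | K3 p a b c (e b * σ) (e c * τ)} := by
  rw [FF]
  congr 1
  ext e
  rw [mem_filter, mem_filter, act_QT, bad_QT p hab hac hbc, B3_iff hp hab hac hbc]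

open Classical in
theorem FF_QT_le {p : I → V} (hp : GP p) {a b c : I} (σ τ : ℤˣ) (hab : a ≠ b) (hac : a ≠ c)
    (hbc : b ≠ c) : 2 * FF p (QT a b c σ τ) ≤ Fintype.card (I → ℤˣ) := by
  rw [FF_QT hp σ τ hab hac hbc]
  have hne : (1 : I → ℤˣ) ≠ Pi.mulSingle c (-1) := by
    intro h
    have := congrFun h c
    simp at this
  have h := avg_le (fun e : I → ℤˣ => K3 p a b c (e b * σ) (e c * τ))
    {1, Pi.mulSingle c (-1)} 1 (by
      intro s
      by_contra hcon
      push Not at hcon
      obtain ⟨x, hx, y, hy, hxy⟩ := one_lt_card.mp hcon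
      rw [mem_filter, mem_insert, mem_singleton] at hx hy
      have hsingle : ((Pi.mulSingle c (-1) : I → ℤˣ) * s) b = s b := by
        rw [Pi.mul_apply, Pi.mulSingle_eq_of_ne hbc, one_mul]
      have hsingle' : ((Pi.mulSingle c (-1) : I → ℤˣ) * s) c = - s c := by
        rw [Pi.mul_apply, Pi.mulSingle_eq_same, neg_one_mul]
      rcases hx with ⟨rfl | rfl, hx2⟩ <;> rcases hy with ⟨rfl | rfl, hy2⟩
      · exact hxy rfl
      · rw [one_mul] at hx2
        rw [hsingle, hsingle', neg_mul] at hy2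
        exact K3_flip hp hab hac _ _ ⟨hx2, hy2⟩
      · rw [one_mul] at hy2
        rw [hsingle, hsingle', neg_mul] at hx2
        exact K3_flip hp hab hac _ _ ⟨hy2, hx2⟩
      · exact hxy rfl)
  rw [card_pair hne, one_mul] at h
  exact h

open Classical in
theorem FF_QT_ge {p : I → V} (hp : GP p) {a b c : I} (σ τ : ℤˣ) (hab : a ≠ b) (hac : a ≠ c)
    (hbc : b ≠ c) (hn : Nested p a b c) :
    Fintype.card (I → ℤˣ) ≤ 2 * FF p (QT a b c σ τ) := by
  rw [FF_QT hp σ τ hab hac hbc]
  have hne : (1 : I → ℤˣ) ≠ Pi.mulSingle c (-1) := by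
    intro h
    have := congrFun h c
    simp at this
  have h := avg_ge (fun e : I → ℤˣ => K3 p a b c (e b * σ) (e c * τ))
    {1, Pi.mulSingle c (-1)} 1 (by
      intro s
      rw [Nat.succ_le_iff, card_pos]
      have hsingle : ((Pi.mulSingle c (-1) : I → ℤˣ) * s) b = s b := by
        rw [Pi.mul_apply, Pi.mulSingle_eq_of_ne hbc, one_mul]
      have hsingle' : ((Pi.mulSingle c (-1) : I → ℤˣ) * s) c = - s c := by
        rw [Pi.mul_apply, Pi.mulSingle_eq_same, neg_one_mul]
      rcases K3_of_nested hp hab hac hbc hn (s b * σ) (s c * τ) with h | h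
      · refine ⟨1, ?_⟩
        rw [mem_filter, one_mul]
        exact ⟨by simp, h⟩
      · refine ⟨Pi.mulSingle c (-1), ?_⟩
        rw [mem_filter, hsingle, hsingle', neg_mul]
        exact ⟨by simp, h⟩)
  rw [card_pair hne, one_mul] at h
  exact h

open Classical in
theorem FF_QT_eq_zero {p : I → V} (hp : GP p) {a b c : I} (σ τ : ℤˣ) (hab : a ≠ b) (hac : a ≠ c)
    (hbc : b ≠ c) (hn : ¬ Nested p a b c) : FF p (QT a b c σ τ) = 0 := by
  rw [FF_QT hp σ τ hab hac hbc, card_eq_zero, filter_eq_empty_iff]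
  intro e _
  exact not_K3_of_not_nested hp hab hac hbc hn _ _

theorem FF_QP {p : I → V} (hp : GP p) {S : Finset I} (hS : S.card = 2) : FF p (QP S) = 0 := by
  classical
  rw [FF, card_eq_zero, filter_eq_empty_iff]
  intro e _
  rw [act_QP]
  exact not_bad_QP hp hS

omit [DecidableEq I] [Fintype I] in
theorem top_not_nest {p : I → V} (hp : GP p) {S : Finset I} {k : I} (h : Top p S k) {i j : I}
    (hi : i ∈ S) (hj : j ∈ S) : ¬ Nest p k i j := by
  obtain ⟨l, hl, hlk, hmax⟩ := h
  rintro ⟨x, y, hxy, he⟩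
  have hM : 0 < |dt (p l) (p k)| := abs_pos.mpr (hp.dt_ne hlk)
  have h1 : dt (p l) (p k) = x * dt (p l) (p i) + y * dt (p l) (p j) := by
    rw [he, dt_add_right, dt_smul_right, dt_smul_right]
  have h2 : |dt (p l) (p k)| ≤ (|x| + |y|) * |dt (p l) (p k)| := by
    calc |dt (p l) (p k)| = |x * dt (p l) (p i) + y * dt (p l) (p j)| := by rw [← h1]
      _ ≤ |x| * |dt (p l) (p i)| + |y| * |dt (p l) (p j)| := by
          refine (abs_add_le _ _).trans ?_
          rw [abs_mul, abs_mul]
      _ ≤ |x| * |dt (p l) (p k)| + |y| * |dt (p l) (p k)| :=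
          add_le_add (mul_le_mul_of_nonneg_left (hmax i hi) (abs_nonneg _))
            (mul_le_mul_of_nonneg_left (hmax j hj) (abs_nonneg _))
      _ = _ := by ring
  nlinarith

theorem FF_QR_ge {p : I → V} (hp : GP p) {S : Finset I} (hS : S.card = 4) (b : I → ℤˣ)
    (hn : ∀ a b c, a ≠ b → a ≠ c → b ≠ c → Nested p a b c) :
    Fintype.card (I → ℤˣ) ≤ 2 * FF p (QR S b) := by
  classical
  rw [FF_QR]
  obtain ⟨k1, hk1, k2, hk2, hne, t1, t2⟩ := exists_top2 hp (by omega : 2 ≤ S.card)
  have hcard : ((S.erase k1).erase k2).card = 2 := by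
    rw [card_erase_of_mem (mem_erase.mpr ⟨Ne.symm hne, hk2⟩), card_erase_of_mem hk1, hS]
  obtain ⟨i, j, hij, hset⟩ := card_eq_two.mp hcard
  have hinn : ∀ i ∈ (S.erase k1).erase k2, Inn p S i := by
    intro i hi
    have hi2 : i ≠ k2 := ne_of_mem_erase hi
    have hi1 : i ≠ k1 := ne_of_mem_erase (mem_of_mem_erase hi)
    have hiS : i ∈ S := mem_of_mem_erase (mem_of_mem_erase hi)
    have hnest : Nest p i k1 k2 := by
      rcases hn i k1 k2 hi1 hi2 hne with h | h | h
      · exact h
      · exact absurd h (top_not_nest hp t1 hk2 hiS)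
      · exact absurd h (top_not_nest hp t2 hiS hk1)
    obtain ⟨x, y, hxy, he⟩ := hnest
    have hk1' : k1 ∈ S.erase i := mem_erase.mpr ⟨Ne.symm hi1, hk1⟩
    have hk2' : k2 ∈ (S.erase i).erase k1 :=
      mem_erase.mpr ⟨Ne.symm hne, mem_erase.mpr ⟨Ne.symm hi2, hk2⟩⟩
    refine ⟨fun j => if j = k1 then x else if j = k2 then y else 0, ?_, ?_⟩
    · rw [← add_sum_erase _ _ hk1', ← add_sum_erase _ _ hk2']
      have : ∑ j ∈ ((S.erase i).erase k1).erase k2,
          |if j = k1 then x else if j = k2 then y else 0| = 0 := by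
        refine sum_eq_zero fun j hj => ?_
        rw [if_neg (ne_of_mem_erase (mem_of_mem_erase hj)), if_neg (ne_of_mem_erase hj), abs_zero]
      rw [this]
      simp only [if_true, Ne.symm hne, if_false]
      linarith
    · rw [← add_sum_erase _ _ hk1', ← add_sum_erase _ _ hk2']
      have : ∑ j ∈ ((S.erase i).erase k1).erase k2,
          (if j = k1 then x else if j = k2 then y else 0) • p j = 0 := by
        refine sum_eq_zero fun j hj => ?_
        rw [if_neg (ne_of_mem_erase (mem_of_mem_erase hj)), if_neg (ne_of_mem_erase hj), zero_smul]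
      rw [this]
      simp only [if_true, Ne.symm hne, if_false]
      rw [add_zero, he]
  have mi : i ∈ (S.erase k1).erase k2 := by rw [hset]; simp
  have mj : j ∈ (S.erase k1).erase k2 := by rw [hset]; simp
  exact card_rainbow_ge hp hS (mem_of_mem_erase (mem_of_mem_erase mi))
    (mem_of_mem_erase (mem_of_mem_erase mj)) hij (hinn i mi) (hinn j mj)

open Classical in
/-- the number of bad quadruples -/
noncomputable def NB (p : I → V) : ℕ :=
  #((powersetCard 4 (univ : Finset (I × ℤˣ))).filter (Bad p))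

theorem card_mul_NB (p : I → V) : Fintype.card (I → ℤˣ) * NB p =
    ∑ Q ∈ powersetCard 4 (univ : Finset (I × ℤˣ)), FF p Q := by
  classical
  have h1 : ∀ e : I → ℤˣ, NB p = #((powersetCard 4 (univ : Finset (I × ℤˣ))).filter fun Q =>
      Bad p (Q.map (act e).toEmbedding)) := by
    intro e
    rw [NB]
    symm
    apply card_bij (fun Q _ => Q.map (act e).toEmbedding)
    · intro Q hQ
      rw [mem_filter, mem_powersetCard] at hQ ⊢
      refine ⟨⟨subset_univ _, ?_⟩, hQ.2⟩
      rw [card_map]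
      exact hQ.1.2
    · intro Q _ Q' _ h
      exact map_injective _ h
    · intro Q hQ
      rw [mem_filter, mem_powersetCard] at hQ
      refine ⟨Q.map (act e).symm.toEmbedding, ?_, ?_⟩
      · rw [mem_filter, mem_powersetCard, card_map, map_map]
        have : (act e).symm.toEmbedding.trans (act e).toEmbedding =
            Function.Embedding.refl _ := by
          ext x : 1
          simp
        rw [this, map_refl]
        exact ⟨⟨subset_univ _, hQ.1.2⟩, hQ.2⟩
      · rw [map_map]
        have : (act e).symm.toEmbedding.trans (act e).toEmbedding =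
            Function.Embedding.refl _ := by
          ext x : 1
          simp
        rw [this, map_refl]
  calc Fintype.card (I → ℤˣ) * NB p = ∑ _e : I → ℤˣ, NB p := by
        rw [sum_const, card_univ, smul_eq_mul]
    _ = ∑ e : I → ℤˣ, #((powersetCard 4 (univ : Finset (I × ℤˣ))).filter fun Q =>
          Bad p (Q.map (act e).toEmbedding)) := sum_congr rfl fun e _ => h1 e
    _ = ∑ e : I → ℤˣ, ∑ Q ∈ powersetCard 4 (univ : Finset (I × ℤˣ)),
          (if Bad p (Q.map (act e).toEmbedding) then 1 else 0) := by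
        refine sum_congr rfl fun e _ => ?_
        rw [card_filter]
    _ = ∑ Q ∈ powersetCard 4 (univ : Finset (I × ℤˣ)), ∑ e : I → ℤˣ,
          (if Bad p (Q.map (act e).toEmbedding) then 1 else 0) := sum_comm
    _ = _ := by
        refine sum_congr rfl fun Q _ => ?_
        rw [FF, card_filter]

/-- quadruples that consist of two pairs -/
def PT (Q : Finset (I × ℤˣ)) : Prop := ∃ S : Finset I, S.card = 2 ∧ Q = QP S

omit [DecidableEq I] in
open Classical in
theorem card_PT : #((powersetCard 4 (univ : Finset (I × ℤˣ))).filter PT) =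
    (Fintype.card I).choose 2 := by
  rw [← card_univ, ← card_powersetCard]
  symm
  apply card_bij (fun S _ => QP S)
  · intro S hS
    rw [mem_powersetCard] at hS
    rw [mem_filter, mem_powersetCard]
    refine ⟨⟨subset_univ _, ?_⟩, S, hS.2, rfl⟩
    rw [QP, card_product, hS.2]
    rfl
  · intro S _ S' _ h
    ext i
    have := Finset.ext_iff.mp h (i, 1)
    simpa [QP] using this
  · intro Q hQ
    rw [mem_filter] at hQ
    obtain ⟨S, hS, rfl⟩ := hQ.2
    exact ⟨S, mem_powersetCard.mpr ⟨subset_univ _, hS⟩, rfl⟩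

theorem two_FF_le {p : I → V} (hp : GP p) {Q : Finset (I × ℤˣ)} (hQ : Q.card = 4) :
    2 * FF p Q ≤ Fintype.card (I → ℤˣ) := by
  classical
  rcases classify Q hQ with ⟨S, b, hS, rfl⟩ | ⟨a, b, c, σ, τ, hab, hac, hbc, rfl⟩ | ⟨S, hS, rfl⟩
  · rw [FF_QR]
    exact card_rainbow_le hp hS
  · exact FF_QT_le hp σ τ hab hac hbc
  · rw [FF_QP hp hS]
    omega

theorem FF_of_PT {p : I → V} (hp : GP p) {Q : Finset (I × ℤˣ)} (hQ : PT Q) : FF p Q = 0 := by
  obtain ⟨S, hS, rfl⟩ := hQ
  exact FF_QP hp hS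

open Classical in
theorem split (p : I → V) (hp : GP p) : 2 * (Fintype.card (I → ℤˣ) * NB p) =
    ∑ Q ∈ (powersetCard 4 (univ : Finset (I × ℤˣ))).filter (fun Q => ¬ PT Q), 2 * FF p Q := by
  rw [card_mul_NB, ← sum_filter_add_sum_filter_not _ PT, mul_add, ← mul_sum]
  have : ∑ Q ∈ (powersetCard 4 (univ : Finset (I × ℤˣ))).filter PT, FF p Q = 0 :=
    sum_eq_zero fun Q hQ => FF_of_PT hp (mem_filter.mp hQ).2
  rw [this, mul_zero, zero_add]

omit [DecidableEq I] in
open Classical in
theorem card_not_PT : #((powersetCard 4 (univ : Finset (I × ℤˣ))).filter (fun Q => ¬ PT Q)) +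
    (Fintype.card I).choose 2 = (2 * Fintype.card I).choose 4 := by
  have h1 : #(powersetCard 4 (univ : Finset (I × ℤˣ))) = (2 * Fintype.card I).choose 4 := by
    rw [card_powersetCard, card_univ, Fintype.card_prod]
    congr 1
    rw [mul_comm]
    rfl
  have h2 := card_filter_add_card_filter_not (s := powersetCard 4 (univ : Finset (I × ℤˣ))) PT
  rw [card_PT, h1] at h2
  omega

/-- the upper bound for the number of bad quadruples -/
theorem NB_le {p : I → V} (hp : GP p) :
    2 * NB p + (Fintype.card I).choose 2 ≤ (2 * Fintype.card I).choose 4 := by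
  classical
  have h1 := split p hp
  have h2 : ∑ Q ∈ (powersetCard 4 (univ : Finset (I × ℤˣ))).filter (fun Q => ¬ PT Q),
      2 * FF p Q ≤ ∑ _Q ∈ (powersetCard 4 (univ : Finset (I × ℤˣ))).filter (fun Q => ¬ PT Q),
        Fintype.card (I → ℤˣ) := by
    refine sum_le_sum fun Q hQ => ?_
    rw [mem_filter, mem_powersetCard] at hQ
    exact two_FF_le hp hQ.1.2
  rw [sum_const, smul_eq_mul, ← h1] at h2
  have hpos : 0 < Fintype.card (I → ℤˣ) := Fintype.card_pos
  have h3 : 2 * NB p ≤ #((powersetCard 4 (univ : Finset (I × ℤˣ))).filter (fun Q => ¬ PT Q)) := by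
    refine Nat.le_of_mul_le_mul_right ?_ hpos
    calc 2 * NB p * Fintype.card (I → ℤˣ) = 2 * (Fintype.card (I → ℤˣ) * NB p) := by ring
      _ ≤ _ := h2
  have h4 := card_not_PT (I := I)
  omega

/-- equality if and only if all triples of pairs are nested -/
theorem NB_eq_iff {p : I → V} (hp : GP p) :
    2 * NB p + (Fintype.card I).choose 2 = (2 * Fintype.card I).choose 4 ↔
      ∀ a b c, a ≠ b → a ≠ c → b ≠ c → Nested p a b c := by
  classical
  have h1 := split p hp
  have hle : ∀ Q ∈ (powersetCard 4 (univ : Finset (I × ℤˣ))).filter (fun Q => ¬ PT Q),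
      2 * FF p Q ≤ Fintype.card (I → ℤˣ) := by
    intro Q hQ
    rw [mem_filter, mem_powersetCard] at hQ
    exact two_FF_le hp hQ.1.2
  have hpos : 0 < Fintype.card (I → ℤˣ) := Fintype.card_pos
  have h4 := card_not_PT (I := I)
  have hiff : 2 * NB p + (Fintype.card I).choose 2 = (2 * Fintype.card I).choose 4 ↔
      ∀ Q ∈ (powersetCard 4 (univ : Finset (I × ℤˣ))).filter (fun Q => ¬ PT Q),
        2 * FF p Q = Fintype.card (I → ℤˣ) := by
    rw [← sum_eq_sum_iff_of_le hle, ← h1, sum_const, smul_eq_mul]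
    constructor
    · intro h
      have : 2 * NB p = #((powersetCard 4 (univ : Finset (I × ℤˣ))).filter
          (fun Q => ¬ PT Q)) := by omega
      rw [← this]
      ring
    · intro h
      have : 2 * NB p = #((powersetCard 4 (univ : Finset (I × ℤˣ))).filter
          (fun Q => ¬ PT Q)) := by
        refine Nat.eq_of_mul_eq_mul_right hpos ?_
        rw [← h]
        ring
      omega
  rw [hiff]
  constructor
  · intro h a b c hab hac hbc
    by_contra hn
    have h0 := FF_QT_eq_zero hp 1 1 hab hac hbc hn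
    have hmem : QT a b c 1 1 ∈ (powersetCard 4 (univ : Finset (I × ℤˣ))).filter
        (fun Q => ¬ PT Q) := by
      rw [mem_filter, mem_powersetCard]
      refine ⟨⟨subset_univ _, ?_⟩, ?_⟩
      · rw [QT, card_insert_of_notMem, card_insert_of_notMem, card_insert_of_notMem,
          card_singleton]
        · simp [hbc]
        · simp [hab, hac]
        · simp [hab, hac]
      · rintro ⟨S, hS, h⟩
        exact QT_ne_QP hab hac hbc hS h
    have := h _ hmem
    rw [h0] at this
    omega
  · intro hn Q hQ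
    refine le_antisymm (hle Q hQ) ?_
    rw [mem_filter, mem_powersetCard] at hQ
    rcases classify Q hQ.1.2 with ⟨S, b, hS, rfl⟩ | ⟨a, b, c, σ, τ, hab, hac, hbc, rfl⟩ |
      ⟨S, hS, rfl⟩
    · exact FF_QR_ge hp hS b hn
    · exact FF_QT_ge hp σ τ hab hac hbc (hn a b c hab hac hbc)
    · exact absurd ⟨S, hS, rfl⟩ hQ.2

end Fin

end Pool.Agent.CSym
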