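import Pool.Agent.CSym.Transfer

/-!
# Sharpness: a nested example
-/

set_option autoImplicit false

open Finset

namespace Pool.Agent.CSym

theorem neg_pt {I : Type*} (p : I → V) (i : I) (s : ℤˣ) : - pt p (i, s) = pt p (i, -s) := by
  simp only [pt, sg_neg, neg_smul]

section gen

variable {I : Type*} {p : I → V} (h2 : ∀ i j, i ≠ j → dt (p i) (p j) ≠ 0) (h0 : ∀ i, p i ≠ 0)

include h2 h0

theorem pt_injective : Function.Injective (pt p) := by
  rintro ⟨i, s⟩ ⟨j, t⟩ h
  by_cases hij : i = j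
  · subst hij
    have h1 : (sg s - sg t) • p i = 0 := by
      rw [sub_smul, sub_eq_zero]; exact h
    rcases smul_eq_zero.mp h1 with h1 | h1
    · rw [sg_inj (sub_eq_zero.mp h1)]
    · exact absurd h1 (h0 i)
  · exfalso
    have h1 : dt (pt p (i, s)) (pt p (j, t)) = 0 := by rw [h, dt_self]
    simp only [pt, dt, Prod.smul_fst, Prod.smul_snd, smul_eq_mul] at h1
    have h3 : sg s * sg t * dt (p i) (p j) = 0 := by
      simp only [dt]; linear_combination h1
    rcases mul_eq_zero.mp h3 with h4 | h4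
    · rcases sg_cases s with h5 | h5 <;> rcases sg_cases t with h6 | h6 <;>
        rw [h5, h6] at h4 <;> norm_num at h4
    · exact h2 i j hij h4

omit h0 in
theorem gp_of_nested (h3 : ∀ i j k, i ≠ j → j ≠ k → i ≠ k →
    |dt (p i) (p j)| + |dt (p j) (p k)| < |dt (p k) (p i)| ∨
    |dt (p j) (p k)| + |dt (p k) (p i)| < |dt (p i) (p j)| ∨
    |dt (p k) (p i)| + |dt (p i) (p j)| < |dt (p j) (p k)|) : GP p := by
  rintro ⟨i, a⟩ ⟨j, b⟩ ⟨k, c⟩ hxy hyz hxz h
  have hpair : ∀ (i : I) (a b : ℤˣ), ((i, a) : I × ℤˣ) ≠ (i, b) → b = -a := by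
    intro i a b h
    rcases Int.units_eq_one_or a with rfl | rfl <;> rcases Int.units_eq_one_or b with rfl | rfl
    · exact absurd rfl h
    · rfl
    · rw [neg_neg]
    · exact absurd rfl h
  have hd : ∀ (i j : I) (a b : ℤˣ), dt (pt p (i, a)) (pt p (j, b)) =
      sg a * sg b * dt (p i) (p j) := by
    intro i j a b
    simp only [pt, dt, Prod.smul_fst, Prod.smul_snd, smul_eq_mul]
    ring
  have hsg : ∀ a : ℤˣ, sg a ≠ 0 := by
    intro a; rcases sg_cases a with h | h <;> rw [h] <;> norm_num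
  rw [ar, hd, hd, hd] at h
  by_cases hij : i = j
  · subst hij
    have hb := hpair i a b hxy
    subst hb
    have hik : i ≠ k := by
      rintro rfl
      have h5 := hpair i a c hxz
      subst h5
      exact hyz rfl
    rw [dt_self, sg_neg, dt_comm (p k)] at h
    have h6 : sg a * sg c * dt (p i) (p k) = 0 := by linarith
    exact (mul_ne_zero (mul_ne_zero (hsg a) (hsg c)) (h2 i k hik)) h6
  by_cases hjk : j = k
  · subst hjk
    have hb := hpair j b c hyz
    subst hb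
    rw [dt_self, sg_neg, dt_comm (p j) (p i)] at h
    have h6 : sg a * sg b * dt (p i) (p j) = 0 := by linarith
    exact (mul_ne_zero (mul_ne_zero (hsg a) (hsg b)) (h2 i j hij)) h6
  by_cases hik : i = k
  · subst hik
    have hb := hpair i a c hxz
    subst hb
    rw [dt_self, sg_neg, dt_comm (p j) (p i)] at h
    have h6 : sg a * sg b * dt (p i) (p j) = 0 := by linarith
    exact (mul_ne_zero (mul_ne_zero (hsg a) (hsg b)) (h2 i j hij)) h6
  have e1 : |sg a * sg b * dt (p i) (p j)| = |dt (p i) (p j)| := by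
    rw [abs_mul, abs_mul, abs_sg, abs_sg]; ring
  have e2 : |sg b * sg c * dt (p j) (p k)| = |dt (p j) (p k)| := by
    rw [abs_mul, abs_mul, abs_sg, abs_sg]; ring
  have e3 : |sg c * sg a * dt (p k) (p i)| = |dt (p k) (p i)| := by
    rw [abs_mul, abs_mul, abs_sg, abs_sg]; ring
  rcases h3 i j k hij hjk hik with h4 | h4 | h4
  · rw [← e1, ← e2, ← e3] at h4
    have h5 : sg c * sg a * dt (p k) (p i) =
      - (sg a * sg b * dt (p i) (p j) + sg b * sg c * dt (p j) (p k)) := by linarith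
    rw [h5, abs_neg] at h4
    exact absurd (abs_add_le _ _) (not_le.mpr h4)
  · rw [← e1, ← e2, ← e3] at h4
    have h5 : sg a * sg b * dt (p i) (p j) =
      - (sg b * sg c * dt (p j) (p k) + sg c * sg a * dt (p k) (p i)) := by linarith
    rw [h5, abs_neg] at h4
    exact absurd (abs_add_le _ _) (not_le.mpr h4)
  · rw [← e1, ← e2, ← e3] at h4
    have h5 : sg b * sg c * dt (p j) (p k) =
      - (sg c * sg a * dt (p k) (p i) + sg a * sg b * dt (p i) (p j)) := by linarith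
    rw [h5, abs_neg] at h4
    exact absurd (abs_add_le _ _) (not_le.mpr h4)

end gen

/-- The example. -/
noncomputable def ex (m : ℕ) (i : Fin m) : V :=
  ((2 * m + 1 : ℝ) ^ (i : ℕ), (i : ℕ) * (2 * m + 1 : ℝ) ^ (i : ℕ))

theorem dt_ex (m : ℕ) (i j : Fin m) : dt (ex m i) (ex m j) =
    (2 * m + 1 : ℝ) ^ (i : ℕ) * (2 * m + 1 : ℝ) ^ (j : ℕ) * (((j : ℕ) : ℝ) - ((i : ℕ) : ℝ)) := by
  simp only [dt, ex]
  ring

theorem ex_lt (m : ℕ) {i j k : Fin m} (hij : i < j) (hjk : j < k) :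
    |dt (ex m i) (ex m j)| + |dt (ex m i) (ex m k)| < |dt (ex m j) (ex m k)| := by
  have hM : (1 : ℝ) ≤ 2 * m + 1 := by
    have : (0 : ℝ) ≤ m := Nat.cast_nonneg m
    linarith
  set M : ℝ := 2 * m + 1 with hMdef
  have h1 : ((i : ℕ) : ℝ) + 1 ≤ ((j : ℕ) : ℝ) := by exact_mod_cast hij
  have h2 : ((j : ℕ) : ℝ) + 1 ≤ ((k : ℕ) : ℝ) := by exact_mod_cast hjk
  have h3 : ((k : ℕ) : ℝ) ≤ m := by exact_mod_cast k.2.le
  have h0 : (0 : ℝ) ≤ ((i : ℕ) : ℝ) := Nat.cast_nonneg _
  have pi : 0 < M ^ (i : ℕ) := by positivity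
  have pj : 0 < M ^ (j : ℕ) := by positivity
  have pk : 0 < M ^ (k : ℕ) := by positivity
  have hjk' : M ^ (j : ℕ) ≤ M ^ (k : ℕ) := pow_le_pow_right₀ hM hjk.le
  have hij' : M * M ^ (i : ℕ) ≤ M ^ (j : ℕ) := by
    rw [← pow_succ']
    exact pow_le_pow_right₀ hM hij
  rw [dt_ex, dt_ex, dt_ex, ← hMdef, abs_of_pos, abs_of_pos, abs_of_pos]
  · set A := M ^ (i : ℕ)
    set B := M ^ (j : ℕ)
    set C := M ^ (k : ℕ)
    set x := ((i : ℕ) : ℝ)
    set y := ((j : ℕ) : ℝ)
    set z := ((k : ℕ) : ℝ)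
    have e1 : A * B * (y - x) ≤ A * C * m := by
      have t1 : A * B ≤ A * C := mul_le_mul_of_nonneg_left hjk' pi.le
      have t2 : 0 ≤ y - x := by linarith
      have t3 : y - x ≤ m := by linarith
      exact mul_le_mul t1 t3 t2 (by positivity)
    have e2 : A * C * (z - x) ≤ A * C * m :=
      mul_le_mul_of_nonneg_left (by linarith) (by positivity)
    have e3 : M * (A * C) ≤ B * C * (z - y) := by
      have t1 : M * A * C ≤ B * C := mul_le_mul_of_nonneg_right hij' pk.le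
      have t2 : B * C * 1 ≤ B * C * (z - y) :=
        mul_le_mul_of_nonneg_left (by linarith) (by positivity)
      linarith
    have e4 : 0 < A * C := by positivity
    have e5 : M * (A * C) = A * C * m + A * C * m + A * C := by rw [hMdef]; ring
    linarith
  · exact mul_pos (by positivity) (by linarith)
  · exact mul_pos (by positivity) (by linarith)
  · exact mul_pos (by positivity) (by linarith)

theorem ex_dt_ne (m : ℕ) (i j : Fin m) (h : i ≠ j) : dt (ex m i) (ex m j) ≠ 0 := by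
  have hM : (0 : ℝ) < 2 * m + 1 := by positivity
  rw [dt_ex]
  refine mul_ne_zero (by positivity) ?_
  intro h1
  apply h
  ext
  exact_mod_cast (sub_eq_zero.mp h1).symm

theorem ex_ne_zero (m : ℕ) (i : Fin m) : ex m i ≠ 0 := by
  intro h
  have h1 := congrArg Prod.fst h
  simp only [ex, Prod.fst_zero] at h1
  have hM : (0 : ℝ) < 2 * m + 1 := by positivity
  exact absurd h1 (by positivity)

theorem abs_dt_comm (x y : V) : |dt x y| = |dt y x| := by rw [dt_comm, abs_neg]

theorem ex_three (m : ℕ) (i j k : Fin m) (hij : i ≠ j) (hjk : j ≠ k) (hik : i ≠ k) :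
    |dt (ex m i) (ex m j)| + |dt (ex m j) (ex m k)| < |dt (ex m k) (ex m i)| ∨
    |dt (ex m j) (ex m k)| + |dt (ex m k) (ex m i)| < |dt (ex m i) (ex m j)| ∨
    |dt (ex m k) (ex m i)| + |dt (ex m i) (ex m j)| < |dt (ex m j) (ex m k)| := by
  have hki := abs_dt_comm (ex m k) (ex m i)
  have hij' := abs_dt_comm (ex m i) (ex m j)
  have hjk' := abs_dt_comm (ex m j) (ex m k)
  rcases lt_or_gt_of_ne hij with h1 | h1 <;> rcases lt_or_gt_of_ne hjk with h2 | h2 <;>
    rcases lt_or_gt_of_ne hik with h3 | h3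
  · have := ex_lt m h1 h2; right; right; linarith
  · exact absurd (h1.trans h2) (not_lt.mpr h3.le)
  · have := ex_lt m h3 h2; right; right; linarith
  · have := ex_lt m h3 h1; right; left; linarith
  · have := ex_lt m h1 h3; left; linarith
  · have := ex_lt m h2 h3; left; linarith
  · exact absurd (h2.trans h1) (not_lt.mpr h3.le)
  · have := ex_lt m h2 h1; right; left; linarith

theorem ex_gp (m : ℕ) : GP (ex m) := gp_of_nested (ex_dt_ne m) (ex_three m)

/-- the point set -/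
noncomputable def exP (m : ℕ) : Finset V :=
  (univ : Finset (Fin m × ℤˣ)).map ⟨pt (ex m), pt_injective (ex_dt_ne m) (ex_ne_zero m)⟩

theorem mem_exP {m : ℕ} {x : V} : x ∈ exP m ↔ ∃ y, pt (ex m) y = x := by
  rw [exP, mem_map]
  simp

theorem card_exP (m : ℕ) : (exP m).card = 2 * m := by
  rw [exP, card_map, card_univ, Fintype.card_prod, Fintype.card_fin, mul_comm]
  rfl

theorem sym_exP (m : ℕ) : Sym (exP m) := by
  intro x hx
  obtain ⟨⟨i, s⟩, rfl⟩ := mem_exP.mp hx
  exact mem_exP.mpr ⟨(i, -s), (neg_pt _ _ _).symm⟩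

theorem gpv_exP (m : ℕ) : GPV (exP m) := by
  intro x hx y hy z hz hxy hyz hxz
  obtain ⟨x', rfl⟩ := mem_exP.mp hx
  obtain ⟨y', rfl⟩ := mem_exP.mp hy
  obtain ⟨z', rfl⟩ := mem_exP.mp hz
  exact ex_gp m x' y' z' (fun h => hxy (h ▸ rfl)) (fun h => hyz (h ▸ rfl)) (fun h => hxz (h ▸ rfl))

theorem nested_exP (m : ℕ) : AllNested (exP m) := by
  intro x hx y hy z hz hxy hxy' hyz hyz' hxz hxz'
  obtain ⟨⟨a, σ⟩, rfl⟩ := mem_exP.mp hx
  obtain ⟨⟨b, τ⟩, rfl⟩ := mem_exP.mp hy
  obtain ⟨⟨c, ρ⟩, rfl⟩ := mem_exP.mp hz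
  have hpm : ∀ (a b : Fin m) (σ τ : ℤˣ), pt (ex m) (a, σ) ≠ pt (ex m) (b, τ) →
      pt (ex m) (a, σ) ≠ - pt (ex m) (b, τ) → a ≠ b := by
    rintro a b σ τ h1 h2 rfl
    rw [neg_pt] at h2
    rcases Int.units_eq_one_or σ with rfl | rfl <;> rcases Int.units_eq_one_or τ with rfl | rfl
    · exact h1 rfl
    · exact h2 (by rw [neg_neg])
    · exact h2 rfl
    · exact h1 rfl
  have hab := hpm a b σ τ hxy hxy'
  have hbc := hpm b c τ ρ hyz hyz'
  have hac := hpm a c σ ρ hxz hxz'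
  have hki := abs_dt_comm (ex m c) (ex m a)
  have hij' := abs_dt_comm (ex m a) (ex m b)
  have hjk' := abs_dt_comm (ex m b) (ex m c)
  have hgp := ex_gp m
  rcases ex_three m a b c hab hbc hac with h | h | h
  · right; left
    obtain ⟨s, t, hst, he⟩ := (nest_pt (ex m) b c a τ ρ σ).mpr
      ((nest_iff hgp (Ne.symm hac)).mpr h)
    exact inPar_of_lt hst he
  · right; right
    obtain ⟨s, t, hst, he⟩ := (nest_pt (ex m) c a b ρ σ τ).mpr
      ((nest_iff hgp hab).mpr h)
    exact inPar_of_lt hst he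
  · left
    obtain ⟨s, t, hst, he⟩ := (nest_pt (ex m) a b c σ τ ρ).mpr
      ((nest_iff hgp hbc).mpr h)
    exact inPar_of_lt hst he

theorem exP_min (m : ℕ) : convexQuads (exP m) = minVal m :=
  (eq_minVal_iff (sym_exP m) (gpv_exP m) (card_exP m)).mpr (nested_exP m)

end Pool.Agent.CSym
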