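import Pool.Agent.CSym.Count

/-!
# Quadruples of points of the plane: affine dependency, convex position, crossing edges
-/

set_option autoImplicit false

open Finset

namespace Pool.Agent.CSym

/-- `P` is symmetric about the origin. -/
def Sym (P : Finset V) : Prop := ∀ x ∈ P, -x ∈ P

/-- No three points of `P` are collinear. -/
def GenPos (P : Finset V) : Prop :=
  ∀ x ∈ P, ∀ y ∈ P, ∀ z ∈ P, x ≠ y → y ≠ z → x ≠ z → ¬ Collinear ℝ ({x, y, z} : Set V)

open Classical in
/-- The number of convex quadrilaterals: quadruples of points of `P` in convex position. -/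
noncomputable def convexQuads (P : Finset V) : ℕ :=
  ((P.powersetCard 4).filter fun Q : Finset V =>
    ConvexIndependent ℝ (fun x : ↥(Q : Set V) => (x : V))).card

/-- The edges `e` and `f` (pairs of points) cross: they have no common endpoint and the two
segments meet. -/
def Cross (e f : Finset V) : Prop :=
  Disjoint e f ∧ (convexHull ℝ (e : Set V) ∩ convexHull ℝ (f : Set V)).Nonempty

open Classical in
/-- The number of crossings of the rectilinear drawing of the complete graph with vertex set `P`: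
the number of unordered pairs `{e, f}` of crossing edges. -/
noncomputable def crossings (P : Finset V) : ℕ :=
  (((P.powersetCard 2).powersetCard 2).filter fun E : Finset (Finset V) =>
    ∃ e f, E = {e, f} ∧ Cross e f).card

/-- general position with areas -/
def GPV (P : Finset V) : Prop :=
  ∀ x ∈ P, ∀ y ∈ P, ∀ z ∈ P, x ≠ y → y ≠ z → x ≠ z → ar x y z ≠ 0

theorem collinear_iff_ar {x y z : V} (hxy : x ≠ y) :
    Collinear ℝ ({x, y, z} : Set V) ↔ ar x y z = 0 := by
  rw [collinear_iff_of_mem (p₀ := x) (by simp)]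
  constructor
  · rintro ⟨v, hv⟩
    obtain ⟨r, hr⟩ := hv y (by simp)
    obtain ⟨s, hs⟩ := hv z (by simp)
    rw [hr, hs]
    simp only [ar, dt, vadd_eq_add, Prod.fst_add, Prod.snd_add, Prod.smul_fst, Prod.smul_snd,
      smul_eq_mul]
    ring
  · intro h
    refine ⟨y - x, ?_⟩
    have hq : 0 < (y.1 - x.1) ^ 2 + (y.2 - x.2) ^ 2 := by
      by_contra hcon
      have h1 : (y.1 - x.1) ^ 2 = 0 := by nlinarith [sq_nonneg (y.1 - x.1), sq_nonneg (y.2 - x.2)]
      have h2 : (y.2 - x.2) ^ 2 = 0 := by nlinarith [sq_nonneg (y.1 - x.1), sq_nonneg (y.2 - x.2)]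
      apply hxy
      ext
      · have := pow_eq_zero_iff (two_ne_zero) |>.mp h1; linarith
      · have := pow_eq_zero_iff (two_ne_zero) |>.mp h2; linarith
    intro p hp
    simp only [Set.mem_insert_iff, Set.mem_singleton_iff] at hp
    rcases hp with rfl | rfl | rfl
    · exact ⟨0, by simp⟩
    · exact ⟨1, by simp⟩
    · refine ⟨((p.1 - x.1) * (y.1 - x.1) + (p.2 - x.2) * (y.2 - x.2)) /
        ((y.1 - x.1) ^ 2 + (y.2 - x.2) ^ 2), ?_⟩
      simp only [ar, dt] at h
      ext
      · simp only [vadd_eq_add, Prod.fst_add, Prod.smul_fst, smul_eq_mul, Prod.fst_sub]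
        rw [div_mul_eq_mul_div, ← sub_eq_iff_eq_add, eq_div_iff hq.ne']
        linear_combination -(y.2 - x.2) * h
      · simp only [vadd_eq_add, Prod.snd_add, Prod.smul_snd, smul_eq_mul, Prod.snd_sub]
        rw [div_mul_eq_mul_div, ← sub_eq_iff_eq_add, eq_div_iff hq.ne']
        linear_combination (y.1 - x.1) * h

theorem genPos_iff (P : Finset V) : GenPos P ↔ GPV P := by
  constructor
  · intro h x hx y hy z hz hxy hyz hxz
    rw [Ne, ← collinear_iff_ar hxy]
    exact h x hx y hy z hz hxy hyz hxz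
  · intro h x hx y hy z hz hxy hyz hxz
    rw [collinear_iff_ar hxy]
    exact h x hx y hy z hz hxy hyz hxz

theorem GPV.mono {P Q : Finset V} (h : GPV P) (hQ : Q ⊆ P) : GPV Q :=
  fun x hx y hy z hz => h x (hQ hx) y (hQ hy) z (hQ hz)

/-- affine dependency -/
def Dep (Q : Finset V) (c : V → ℝ) : Prop := ∑ y ∈ Q, c y = 0 ∧ ∑ y ∈ Q, c y • y = 0

theorem dep_three {T : Finset V} (hT : T.card = 3) (h : GPV T) {c : V → ℝ} (hc : Dep T c) :
    ∀ y ∈ T, c y = 0 := by
  intro y hy
  by_contra hne
  obtain ⟨x, z, hxz, hset⟩ := card_eq_two.mp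
    (show (T.erase y).card = 2 by rw [card_erase_of_mem hy, hT])
  have mx : x ∈ T.erase y := by rw [hset]; simp
  have mz : z ∈ T.erase y := by rw [hset]; simp
  obtain ⟨h1, h2⟩ := hc
  rw [← sum_erase_add _ _ hy, hset, sum_pair hxz] at h1 h2
  exact h x (mem_of_mem_erase mx) z (mem_of_mem_erase mz) y hy hxz (ne_of_mem_erase mz)
    (ne_of_mem_erase mx) (ar_eq_zero_of_dep h1 h2 hne)

theorem dep_four {Q : Finset V} (hQ : Q.card = 4) (h : GPV Q) {c : V → ℝ} (hc : Dep Q c) {x : V}
    (hx : x ∈ Q) (h0 : c x = 0) : ∀ y ∈ Q, c y = 0 := by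
  obtain ⟨h1, h2⟩ := hc
  rw [← sum_erase_add _ _ hx] at h1 h2
  rw [h0, add_zero] at h1
  rw [h0, zero_smul, add_zero] at h2
  intro y hy
  by_cases hyx : y = x
  · rw [hyx, h0]
  · exact dep_three (by rw [card_erase_of_mem hx, hQ]) (h.mono (erase_subset _ _)) ⟨h1, h2⟩ y
      (mem_erase.mpr ⟨hyx, hy⟩)

theorem dep_unique {Q : Finset V} (hQ : Q.card = 4) (h : GPV Q) {c c' : V → ℝ} (hc : Dep Q c)
    (hc' : Dep Q c') (hne : ∀ y ∈ Q, c y ≠ 0) : ∃ l : ℝ, ∀ y ∈ Q, c' y = l * c y := by
  obtain ⟨x, hx⟩ := card_pos.mp (by rw [hQ]; norm_num : 0 < Q.card)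
  refine ⟨c' x / c x, ?_⟩
  have hd : Dep Q fun y => c' y - c' x / c x * c y := by
    constructor
    · rw [sum_sub_distrib, ← mul_sum, hc.1, hc'.1]; ring
    · simp only [sub_smul, mul_smul]
      rw [sum_sub_distrib, ← smul_sum, hc.2, hc'.2]; simp
  intro y hy
  have h0 := hne x hx
  have := dep_four hQ h hd hx (by rw [div_mul_cancel₀ _ h0, sub_self]) y hy
  linarith

theorem dep_exists {Q : Finset V} (hQ : Q.card = 4) (h : GPV Q) :
    ∃ c : V → ℝ, Dep Q c ∧ ∀ y ∈ Q, c y ≠ 0 := by
  obtain ⟨x, T, hx, rfl, hT⟩ := card_eq_succ.mp hQ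
  obtain ⟨y, z, w, hyz, hyw, hzw, rfl⟩ := card_eq_three.mp hT
  simp only [mem_insert, mem_singleton, not_or] at hx
  obtain ⟨hxy, hxz, hxw⟩ := hx
  have mx : x ∈ ({x, y, z, w} : Finset V) := by simp
  have my : y ∈ ({x, y, z, w} : Finset V) := by simp
  have mz : z ∈ ({x, y, z, w} : Finset V) := by simp
  have mw : w ∈ ({x, y, z, w} : Finset V) := by simp
  set c : V → ℝ := fun p => if p = x then ar y z w else if p = y then - ar x z w else
    if p = z then ar x y w else - ar x y z with hc
  have c1 : c x = ar y z w := by rw [hc]; beta_reduce; rw [if_pos rfl]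
  have c2 : c y = - ar x z w := by rw [hc]; beta_reduce; rw [if_neg (Ne.symm hxy), if_pos rfl]
  have c3 : c z = ar x y w := by
    rw [hc]; beta_reduce; rw [if_neg (Ne.symm hxz), if_neg (Ne.symm hyz), if_pos rfl]
  have c4 : c w = - ar x y z := by
    rw [hc]; beta_reduce; rw [if_neg (Ne.symm hxw), if_neg (Ne.symm hyw), if_neg (Ne.symm hzw)]
  have hsum : ∀ {W : Type} [AddCommMonoid W] (f : V → W),
      ∑ p ∈ ({x, y, z, w} : Finset V), f p = f x + (f y + (f z + f w)) := by
    intro W _ f
    rw [sum_insert (by simp [hxy, hxz, hxw]), sum_insert (by simp [hyz, hyw]),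
      sum_insert (by simp [hzw]), sum_singleton]
  refine ⟨c, ⟨?_, ?_⟩, ?_⟩
  · rw [hsum, c1, c2, c3, c4]
    simp only [ar, dt]; ring
  · rw [hsum, c1, c2, c3, c4]
    ext
    · simp only [ar, dt, Prod.fst_add, Prod.smul_fst, smul_eq_mul, Prod.fst_zero]; ring
    · simp only [ar, dt, Prod.snd_add, Prod.smul_snd, smul_eq_mul, Prod.snd_zero]; ring
  · intro p hp
    simp only [mem_insert, mem_singleton] at hp
    rcases hp with rfl | rfl | rfl | rfl
    · rw [c1]; exact h y my z mz w mw hyz hzw hyw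
    · rw [c2]; exact neg_ne_zero.mpr (h x mx z mz w mw hxz hzw hxw)
    · rw [c3]; exact h x mx y my w mw hxy hyw hxw
    · rw [c4]; exact neg_ne_zero.mpr (h x mx y my z mz hxy hyz hxz)

/-- one point inside the triangle of the other three -/
def BadV (Q : Finset V) : Prop :=
  ∃ x ∈ Q, ∃ c : V → ℝ, (∀ y ∈ Q, y ≠ x → 0 < c y) ∧ c x < 0 ∧ Dep Q c

theorem convexIndependent_iff {Q : Finset V} (hQ : Q.card = 4) (h : GPV Q) :
    ConvexIndependent ℝ (fun x : ↥(Q : Set V) => (x : V)) ↔ ¬ BadV Q := by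
  rw [convexIndependent_set_iff_notMem_convexHull_sdiff, ← not_iff_not, not_not]
  push Not
  constructor
  · rintro ⟨x, hx, hmem⟩
    have hx' : x ∈ Q := hx
    rw [← coe_singleton, ← coe_sdiff, sdiff_singleton_eq_erase, Finset.mem_convexHull'] at hmem
    obtain ⟨w, w0, w1, w2⟩ := hmem
    set c : V → ℝ := fun y => if y = x then -1 else w y with hc
    have cx : c x = -1 := by rw [hc]; simp
    have cy : ∀ y, y ≠ x → c y = w y := by intro y hy; rw [hc]; simp [hy]
    have hd : Dep Q c := by
      constructor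
      · rw [← sum_erase_add _ _ hx', cx,
          sum_congr rfl fun y hy => cy y (ne_of_mem_erase hy), w1]
        ring
      · rw [← sum_erase_add _ _ hx', cx,
          sum_congr rfl (g := fun y => w y • y) fun y hy => by rw [cy y (ne_of_mem_erase hy)], w2]
        simp
    refine ⟨x, hx', c, ?_, by rw [cx]; norm_num, hd⟩
    intro y hy hyx
    rw [cy y hyx]
    refine lt_of_le_of_ne (w0 y (mem_erase.mpr ⟨hyx, hy⟩)) ?_
    intro h0
    have := dep_four hQ h hd hy (by rw [cy y hyx]; exact h0.symm) x hx'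
    rw [cx] at this
    norm_num at this
  · rintro ⟨x, hx, c, c1, c2, c3, c4⟩
    refine ⟨x, hx, ?_⟩
    rw [← coe_singleton, ← coe_sdiff, sdiff_singleton_eq_erase, Finset.mem_convexHull']
    rw [← sum_erase_add _ _ hx] at c3 c4
    have hcx : 0 < - c x := by linarith
    refine ⟨fun y => (- c x)⁻¹ * c y, ?_, ?_, ?_⟩
    · intro y hy
      exact mul_nonneg (inv_nonneg.mpr hcx.le) (c1 y (mem_of_mem_erase hy) (ne_of_mem_erase hy)).le
    · rw [← mul_sum]
      have : ∑ y ∈ Q.erase x, c y = - c x := by linarith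
      rw [this, inv_mul_cancel₀ hcx.ne']
    · simp only [mul_smul]
      rw [← smul_sum]
      have : ∑ y ∈ Q.erase x, c y • y = (- c x) • x := by
        rw [neg_smul]; exact eq_neg_of_add_eq_zero_left c4
      rw [this, smul_smul, inv_mul_cancel₀ hcx.ne', one_smul]

theorem cross_iff {e f : Finset V} (he : e.card = 2) (hf : f.card = 2) (hef : Disjoint e f)
    (h : GPV (e ∪ f)) : Cross e f ↔ ∃ c : V → ℝ, Dep (e ∪ f) c ∧ (∀ y ∈ e, 0 < c y) ∧
      ∀ y ∈ f, c y < 0 := by
  have hQ : (e ∪ f).card = 4 := by rw [card_union_of_disjoint hef, he, hf]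
  have hne : ∀ y ∈ f, y ∉ e := fun y hy hy' => disjoint_left.mp hef hy' hy
  constructor
  · rintro ⟨-, q, hqe, hqf⟩
    obtain ⟨w, w0, w1, w2⟩ := Finset.mem_convexHull'.mp hqe
    obtain ⟨w', w0', w1', w2'⟩ := Finset.mem_convexHull'.mp hqf
    set c : V → ℝ := fun y => if y ∈ e then w y else - w' y with hc
    have ce : ∀ y ∈ e, c y = w y := by intro y hy; rw [hc]; simp [hy]
    have cf : ∀ y ∈ f, c y = - w' y := by intro y hy; rw [hc]; simp [hne y hy]
    have hd : Dep (e ∪ f) c := by
      constructor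
      · rw [sum_union hef, sum_congr rfl ce, sum_congr rfl cf, sum_neg_distrib, w1, w1']
        ring
      · have e1 : ∑ y ∈ e, c y • y = ∑ y ∈ e, w y • y :=
          sum_congr rfl fun y hy => by rw [ce y hy]
        have e2 : ∑ y ∈ f, c y • y = - ∑ y ∈ f, w' y • y := by
          rw [← sum_neg_distrib]
          exact sum_congr rfl fun y hy => by rw [cf y hy, neg_smul]
        rw [sum_union hef, e1, e2, w2, w2', add_neg_cancel]
    have hz : ∀ y ∈ e ∪ f, c y ≠ 0 := by
      intro y hy h0
      have h1 := dep_four hQ h hd hy h0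
      have : ∑ y ∈ e, w y = 0 := sum_eq_zero fun z hz => by
        rw [← ce z hz]; exact h1 z (mem_union_left _ hz)
      rw [w1] at this
      norm_num at this
    refine ⟨c, hd, ?_, ?_⟩
    · intro y hy
      refine lt_of_le_of_ne ?_ (Ne.symm (hz y (mem_union_left _ hy)))
      rw [ce y hy]
      exact w0 y hy
    · intro y hy
      refine lt_of_le_of_ne ?_ (hz y (mem_union_right _ hy))
      rw [cf y hy]
      exact neg_nonpos.mpr (w0' y hy)
  · rintro ⟨c, ⟨d1, d2⟩, ce, cf⟩
    rw [sum_union hef] at d1 d2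
    have hene : e.Nonempty := card_pos.mp (by omega)
    have hS : 0 < ∑ y ∈ e, c y := sum_pos ce hene
    set S := ∑ y ∈ e, c y with hSdef
    have hS' : ∑ y ∈ f, c y = - S := by linarith
    refine ⟨hef, S⁻¹ • ∑ y ∈ e, c y • y, ?_, ?_⟩
    · refine Finset.mem_convexHull'.mpr ⟨fun y => S⁻¹ * c y, ?_, ?_, ?_⟩
      · intro y hy; exact mul_nonneg (inv_nonneg.mpr hS.le) (ce y hy).le
      · rw [← mul_sum]; exact inv_mul_cancel₀ hS.ne'
      · simp only [mul_smul]; rw [← smul_sum]
    · refine Finset.mem_convexHull'.mpr ⟨fun y => S⁻¹ * (- c y), ?_, ?_, ?_⟩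
      · intro y hy
        exact mul_nonneg (inv_nonneg.mpr hS.le) (neg_nonneg.mpr (cf y hy).le)
      · rw [← mul_sum, sum_neg_distrib, hS', neg_neg]; exact inv_mul_cancel₀ hS.ne'
      · simp only [mul_smul, neg_smul]
        rw [← smul_sum, sum_neg_distrib, ← eq_neg_of_add_eq_zero_left d2]

theorem not_badV_of_cross {e f : Finset V} (he : e.card = 2) (hf : f.card = 2)
    (h : GPV (e ∪ f)) (hc : Cross e f) : ¬ BadV (e ∪ f) := by
  have hef := hc.1
  have hQ : (e ∪ f).card = 4 := by rw [card_union_of_disjoint hef, he, hf]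
  obtain ⟨c, hd, ce, cf⟩ := (cross_iff he hf hef h).mp hc
  rintro ⟨x, hx, c', c1, c2, hd'⟩
  have hz : ∀ y ∈ e ∪ f, c y ≠ 0 := by
    intro y hy
    rcases mem_union.mp hy with h1 | h1
    · exact (ce y h1).ne'
    · exact (cf y h1).ne
  obtain ⟨l, hl⟩ := dep_unique hQ h hd hd' hz
  have hother : ∀ g : Finset V, g.card = 2 → ∃ y ∈ g, y ≠ x := by
    intro g hg
    obtain ⟨a, b, hab, rfl⟩ := card_eq_two.mp hg
    by_cases hax : a = x
    · exact ⟨b, by simp, fun hb => hab (hax.trans hb.symm)⟩
    · exact ⟨a, by simp, hax⟩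
  obtain ⟨y, hy, hyx⟩ := hother e he
  obtain ⟨z, hz', hzx⟩ := hother f hf
  have h1 := c1 y (mem_union_left _ hy) hyx
  have h2 := c1 z (mem_union_right _ hz') hzx
  rw [hl y (mem_union_left _ hy)] at h1
  rw [hl z (mem_union_right _ hz')] at h2
  have h3 := ce y hy
  have h4 := cf z hz'
  nlinarith [mul_pos h1 h3, mul_pos h2 h3, mul_pos_of_neg_of_neg h4 h4]

theorem cross_unique {e f e' f' : Finset V} (he : e.card = 2) (hf : f.card = 2)
    (he' : e'.card = 2) (hf' : f'.card = 2) (h : GPV (e ∪ f)) (hc : Cross e f)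
    (hc' : Cross e' f') (hu : e' ∪ f' = e ∪ f) : ({e', f'} : Finset (Finset V)) = {e, f} := by
  have hef := hc.1
  have hef' := hc'.1
  have hQ : (e ∪ f).card = 4 := by rw [card_union_of_disjoint hef, he, hf]
  obtain ⟨c, hd, ce, cf⟩ := (cross_iff he hf hef h).mp hc
  obtain ⟨c', hd', ce', cf'⟩ := (cross_iff he' hf' hef' (hu ▸ h)).mp hc'
  rw [hu] at hd'
  have hz : ∀ y ∈ e ∪ f, c y ≠ 0 := by
    intro y hy
    rcases mem_union.mp hy with h1 | h1
    · exact (ce y h1).ne'
    · exact (cf y h1).ne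
  obtain ⟨l, hl⟩ := dep_unique hQ h hd hd' hz
  have key : ∀ g g' a b : Finset V, a ∪ b = e ∪ f → g' ∪ g = e ∪ f → g'.card = 2 → a.card = 2 →
      Disjoint a b → (∀ y ∈ a, y ∉ g) → a = g' := by
    intro g g' a b hab hg hg' ha hd hag
    apply eq_of_subset_of_card_le
    · intro y hy
      have : y ∈ g' ∪ g := by rw [hg, ← hab]; exact mem_union_left _ hy
      rcases mem_union.mp this with h1 | h1
      · exact h1
      · exact absurd h1 (hag y hy)
    · rw [hg', ha]
  have hlne : l ≠ 0 := by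
    rintro rfl
    obtain ⟨y, hy⟩ := card_pos.mp (by omega : 0 < e'.card)
    have := ce' y hy
    rw [hl y (by rw [← hu]; exact mem_union_left _ hy)] at this
    simp at this
  rcases lt_or_gt_of_ne hlne with hneg | hpos
  · -- reversed
    have h1 : e' = f := by
      refine key e f e' f' hu (union_comm _ _) hf he' hef' ?_
      intro y hy hye
      have h2 := ce' y hy
      rw [hl y (mem_union_left _ hye)] at h2
      have := mul_pos_of_neg_of_neg hneg (show - c y < 0 by linarith [ce y hye])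
      nlinarith
    have h2 : f' = e := by
      refine key f e f' e' (by rw [union_comm, hu]) rfl he hf' hef'.symm ?_
      intro y hy hyf
      have h2 := cf' y hy
      rw [hl y (mem_union_right _ hyf)] at h2
      have := mul_pos_of_neg_of_neg hneg (cf y hyf)
      linarith
    rw [h1, h2, pair_comm]
  · have h1 : e' = e := by
      refine key f e e' f' hu rfl he he' hef' ?_
      intro y hy hyf
      have h2 := ce' y hy
      rw [hl y (mem_union_right _ hyf)] at h2
      have := mul_neg_of_pos_of_neg hpos (cf y hyf)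
      linarith
    have h2 : f' = f := by
      refine key e f f' e' (by rw [union_comm, hu]) (union_comm _ _) hf hf' hef'.symm ?_
      intro y hy hye
      have h2 := cf' y hy
      rw [hl y (mem_union_left _ hye)] at h2
      have := mul_pos hpos (ce y hye)
      linarith
    rw [h1, h2]

theorem exists_cross {Q : Finset V} (hQ : Q.card = 4) (h : GPV Q) (hb : ¬ BadV Q) :
    ∃ e f : Finset V, e.card = 2 ∧ f.card = 2 ∧ e ∪ f = Q ∧ Cross e f := by
  obtain ⟨c, hd, hz⟩ := dep_exists hQ h
  set e := Q.filter (fun y => 0 < c y) with he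
  set f := Q.filter (fun y => ¬ 0 < c y) with hf
  have hu : e ∪ f = Q := filter_union_filter_not_eq _ _
  have hdisj : Disjoint e f := disjoint_filter_filter_not _ _ _
  have hcard : e.card + f.card = 4 := by
    rw [← card_union_of_disjoint hdisj, hu, hQ]
  have me : ∀ y ∈ e, 0 < c y := fun y hy => (mem_filter.mp hy).2
  have mf : ∀ y ∈ f, c y < 0 := fun y hy =>
    lt_of_le_of_ne (not_lt.mp (mem_filter.mp hy).2) (hz y (mem_filter.mp hy).1)
  have hsum : ∑ y ∈ e, c y + ∑ y ∈ f, c y = 0 := by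
    rw [← sum_union hdisj, hu]; exact hd.1
  have he0 : e.card ≠ 0 := by
    intro h0
    have hf0 : f.Nonempty := card_pos.mp (by omega)
    rw [card_eq_zero.mp h0, sum_empty, zero_add] at hsum
    have := sum_neg mf hf0
    linarith
  have hf0 : f.card ≠ 0 := by
    intro h0
    have he0 : e.Nonempty := card_pos.mp (by omega)
    rw [card_eq_zero.mp h0, sum_empty, add_zero] at hsum
    have := sum_pos me he0
    linarith
  have he1 : e.card ≠ 1 := by
    intro h1
    obtain ⟨x, hx⟩ := card_eq_one.mp h1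
    apply hb
    refine ⟨x, ?_, fun y => - c y, ?_, ?_, ?_, ?_⟩
    · rw [← hu, hx]; simp
    · intro y hy hyx
      rw [← hu, mem_union, hx, mem_singleton] at hy
      rcases hy with hy | hy
      · exact absurd hy hyx
      · exact neg_pos.mpr (mf y hy)
    · exact neg_neg_of_pos (me x (by rw [hx]; simp))
    · rw [sum_neg_distrib, hd.1, neg_zero]
    · simp only [neg_smul]
      rw [sum_neg_distrib, hd.2, neg_zero]
  have hf1 : f.card ≠ 1 := by
    intro h1
    obtain ⟨x, hx⟩ := card_eq_one.mp h1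
    apply hb
    refine ⟨x, ?_, c, ?_, ?_, hd⟩
    · rw [← hu, hx]; simp
    · intro y hy hyx
      rw [← hu, mem_union, hx, mem_singleton] at hy
      rcases hy with hy | hy
      · exact me y hy
      · exact absurd hy hyx
    · exact mf x (by rw [hx]; simp)
  have he2 : e.card = 2 := by omega
  have hf2 : f.card = 2 := by omega
  refine ⟨e, f, he2, hf2, hu, (cross_iff he2 hf2 hdisj (hu ▸ h)).mpr ⟨c, ?_, me, mf⟩⟩
  rw [hu]
  exact hd

/-- The number of crossings is the number of convex quadrilaterals. -/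
theorem crossings_eq {P : Finset V} (h : GPV P) : crossings P = convexQuads P := by
  classical
  rw [crossings, convexQuads]
  apply card_bij (fun (E : Finset (Finset V)) _ => E.sup (id : Finset V → Finset V))
  · intro E hE
    rw [mem_filter, mem_powersetCard] at hE
    obtain ⟨⟨hE1, hE2⟩, e, f, rfl, hc⟩ := hE
    have he := mem_powersetCard.mp (hE1 (by simp : e ∈ ({e, f} : Finset (Finset V))))
    have hf := mem_powersetCard.mp (hE1 (by simp : f ∈ ({e, f} : Finset (Finset V))))
    have hu : ({e, f} : Finset (Finset V)).sup (id : Finset V → Finset V) = e ∪ f := by simp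
    have hcard : (e ∪ f).card = 4 := by rw [card_union_of_disjoint hc.1, he.2, hf.2]
    have hg : GPV (e ∪ f) := h.mono (union_subset he.1 hf.1)
    rw [hu, mem_filter, mem_powersetCard, convexIndependent_iff hcard hg]
    exact ⟨⟨union_subset he.1 hf.1, hcard⟩, not_badV_of_cross he.2 hf.2 hg hc⟩
  · intro E hE E' hE' hEE'
    rw [mem_filter, mem_powersetCard] at hE hE'
    obtain ⟨⟨hE1, hE2⟩, e, f, rfl, hc⟩ := hE
    obtain ⟨⟨hE1', hE2'⟩, e', f', rfl, hc'⟩ := hE'
    have he := mem_powersetCard.mp (hE1 (by simp : e ∈ ({e, f} : Finset (Finset V))))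
    have hf := mem_powersetCard.mp (hE1 (by simp : f ∈ ({e, f} : Finset (Finset V))))
    have he' := mem_powersetCard.mp (hE1' (by simp : e' ∈ ({e', f'} : Finset (Finset V))))
    have hf' := mem_powersetCard.mp (hE1' (by simp : f' ∈ ({e', f'} : Finset (Finset V))))
    have hu : ({e, f} : Finset (Finset V)).sup (id : Finset V → Finset V) = e ∪ f := by simp
    have hu' : ({e', f'} : Finset (Finset V)).sup (id : Finset V → Finset V) = e' ∪ f' := by simp
    rw [hu, hu'] at hEE'
    exact (cross_unique he.2 hf.2 he'.2 hf'.2 (h.mono (union_subset he.1 hf.1)) hc hc'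
      hEE'.symm).symm
  · intro Q hQ
    rw [mem_filter, mem_powersetCard] at hQ
    obtain ⟨⟨hQP, hQ4⟩, hconv⟩ := hQ
    have hg := h.mono hQP
    rw [convexIndependent_iff hQ4 hg] at hconv
    obtain ⟨e, f, he, hf, hu, hc⟩ := exists_cross hQ4 hg hconv
    have hne : e ≠ f := by
      rintro rfl
      have h1 := hc.1
      rw [disjoint_self] at h1
      rw [h1] at he
      simp at he
    refine ⟨{e, f}, ?_, by simpa using hu⟩
    rw [mem_filter, mem_powersetCard]
    refine ⟨⟨?_, card_pair hne⟩, e, f, rfl, hc⟩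
    intro g hg'
    rw [mem_insert, mem_singleton] at hg'
    rw [mem_powersetCard]
    rcases hg' with rfl | rfl
    · exact ⟨(subset_union_left.trans hu.le).trans hQP, he⟩
    · exact ⟨(subset_union_right.trans hu.le).trans hQP, hf⟩

end Pool.Agent.CSym
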