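import Pool.Agent.CSym.Basic

/-!
# Centrally symmetric point sets: four points from four different pairs
-/

set_option autoImplicit false

open Finset

namespace Pool.Agent.CSym

variable {I : Type*} [DecidableEq I]

/-- In the quadruple `{s_j p_j : j ∈ S}` the point with index `i` is inside the triangle of the
other three. -/
def Br (p : I → V) (S : Finset I) (i : I) (s : I → ℤˣ) : Prop :=
  ∃ c : I → ℝ, (∀ j ∈ S, j ≠ i → 0 < c j) ∧ c i < 0 ∧ ∑ j ∈ S, c j = 0 ∧
    ∑ j ∈ S, (c j * sg (s j)) • p j = 0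

omit [DecidableEq I] in
/-- convexity on a line -/
theorem mid {T : Finset I} (α κ : I → ℝ) {x y z : ℝ} (hxy : x < y) (hyz : y < z)
    (hx : ∑ j ∈ T, |α j - x * κ j| = ∑ j ∈ T, |α j - y * κ j|)
    (hz : ∑ j ∈ T, |α j - z * κ j| = ∑ j ∈ T, |α j - y * κ j|) :
    ∀ j ∈ T, 0 ≤ (α j - x * κ j) * (α j - z * κ j) := by
  have h1 : ∀ j ∈ T, (z - x) * |α j - y * κ j| ≤
      (z - y) * |α j - x * κ j| + (y - x) * |α j - z * κ j| := by
    intro j _
    have e : (z - x) * (α j - y * κ j) = (z - y) * (α j - x * κ j) + (y - x) * (α j - z * κ j) := by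
      ring
    calc (z - x) * |α j - y * κ j| = |(z - x) * (α j - y * κ j)| := by
          rw [abs_mul, abs_of_pos (by linarith : (0 : ℝ) < z - x)]
      _ ≤ |(z - y) * (α j - x * κ j)| + |(y - x) * (α j - z * κ j)| := by
          rw [e]; exact abs_add_le _ _
      _ = _ := by
          rw [abs_mul, abs_mul, abs_of_pos (by linarith : (0 : ℝ) < z - y),
            abs_of_pos (by linarith : (0 : ℝ) < y - x)]
  have h2 : ∑ j ∈ T, (z - x) * |α j - y * κ j| =
      ∑ j ∈ T, ((z - y) * |α j - x * κ j| + (y - x) * |α j - z * κ j|) := by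
    rw [sum_add_distrib, ← mul_sum, ← mul_sum, ← mul_sum, hx, hz]
    ring
  have h3 := (sum_eq_sum_iff_of_le h1).mp h2
  intro j hj
  have h4 := h3 j hj
  set u := α j - x * κ j
  set v := α j - z * κ j
  have e : (z - x) * (α j - y * κ j) = (z - y) * u + (y - x) * v := by
    simp only [u, v]; ring
  have h5 : |(z - y) * u + (y - x) * v| = (z - y) * |u| + (y - x) * |v| := by
    rw [← e, abs_mul, abs_of_pos (by linarith : (0 : ℝ) < z - x), h4]
  have h6 : ((z - y) * u + (y - x) * v) ^ 2 = ((z - y) * |u| + (y - x) * |v|) ^ 2 := by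
    rw [← h5, sq_abs]
  have h7 : (z - y) * (y - x) * (u * v) = (z - y) * (y - x) * (|u| * |v|) := by
    linear_combination (1 / 2) * h6 + ((z - y) ^ 2 / 2) * sq_abs u + ((y - x) ^ 2 / 2) * sq_abs v
  have h8 : u * v = |u| * |v| :=
    mul_left_cancel₀ (mul_ne_zero (by linarith) (by linarith)) h7
  rw [h8]
  positivity

omit [DecidableEq I] in
/-- the linear relations between three of the vectors are proportional -/
theorem kernel3 {p : I → V} (hp : GP p) {a b c : I} (hab : a ≠ b) (hac : a ≠ c) (hbc : b ≠ c)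
    {u v : I → ℝ} (hu : u a • p a + u b • p b + u c • p c = 0)
    (hv : v a • p a + v b • p b + v c • p c = 0) (hne : v a ≠ 0 ∨ v b ≠ 0 ∨ v c ≠ 0) :
    ∃ t : ℝ, u a = t * v a ∧ u b = t * v b ∧ u c = t * v c := by
  have key : ∀ w : I → ℝ, w a • p a + w b • p b + w c • p c = 0 →
      w b * dt (p a) (p b) + w c * dt (p a) (p c) = 0 ∧
      w a * dt (p b) (p a) + w c * dt (p b) (p c) = 0 ∧
      w a * dt (p c) (p a) + w b * dt (p c) (p b) = 0 := by
    intro w hw
    refine ⟨?_, ?_, ?_⟩
    · have := congrArg (dt (p a)) hw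
      rw [dt_add_right, dt_add_right, dt_smul_right, dt_smul_right, dt_smul_right, dt_self,
        dt_zero_right] at this
      linarith
    · have := congrArg (dt (p b)) hw
      rw [dt_add_right, dt_add_right, dt_smul_right, dt_smul_right, dt_smul_right, dt_self,
        dt_zero_right] at this
      linarith
    · have := congrArg (dt (p c)) hw
      rw [dt_add_right, dt_add_right, dt_smul_right, dt_smul_right, dt_smul_right, dt_self,
        dt_zero_right] at this
      linarith
  obtain ⟨u1, u2, u3⟩ := key u hu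
  obtain ⟨v1, v2, v3⟩ := key v hv
  have dab := hp.dt_ne hab
  have dac := hp.dt_ne hac
  have dbc := hp.dt_ne hbc
  have cab := dt_comm (p b) (p a)
  have cac := dt_comm (p c) (p a)
  have cbc := dt_comm (p c) (p b)
  -- all coordinates of `v` are nonzero
  have hva : v a ≠ 0 := by
    intro h0
    rw [h0, cab, zero_mul, zero_add] at v2
    rw [h0, zero_mul, zero_add, cbc] at v3
    have h1 : v c = 0 := by
      rcases mul_eq_zero.mp v2 with h | h
      · exact h
      · exact absurd h dbc
    have h2 : v b = 0 := by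
      rcases mul_eq_zero.mp v3 with h | h
      · exact h
      · exact absurd (neg_eq_zero.mp h) dbc
    rcases hne with h | h | h
    · exact h h0
    · exact h h2
    · exact h h1
  refine ⟨u a / v a, by field_simp, ?_, ?_⟩
  · have h1 : dt (p b) (p c) * (u b * v a - u a * v b) = 0 := by
      rw [cac, cbc] at u3 v3
      linear_combination (- v a) * u3 + u a * v3
    rcases mul_eq_zero.mp h1 with h | h
    · exact absurd h dbc
    · field_simp
      linarith
  · have h1 : dt (p b) (p c) * (u c * v a - u a * v c) = 0 := by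
      linear_combination v a * u2 - u a * v2
    rcases mul_eq_zero.mp h1 with h | h
    · exact absurd h dbc
    · field_simp
      linarith

/-- the sign changes on `T` -/
def HT [Fintype I] (T : Finset I) : Finset (I → ℤˣ) :=
  Fintype.piFinset fun j => if j ∈ T then univ else {1}

theorem card_HT [Fintype I] (T : Finset I) : (HT T).card = 2 ^ T.card := by
  rw [HT, Fintype.card_piFinset]
  have : ∀ j, (if j ∈ T then (univ : Finset ℤˣ) else {1}).card = if j ∈ T then 2 else 1 := by
    intro j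
    split_ifs
    · rfl
    · rfl
  rw [prod_congr rfl fun j _ => this j, prod_ite, prod_const, prod_const_one, mul_one]
  congr 1
  congr 1
  ext j
  simp

theorem mem_HT [Fintype I] {T : Finset I} {h : I → ℤˣ} (hh : h ∈ HT T) {j : I} (hj : j ∉ T) :
    h j = 1 := by
  rw [HT, Fintype.mem_piFinset] at hh
  have := hh j
  rw [if_neg hj] at this
  simpa using this

theorem Br.norm {p : I → V} {S : Finset I} {i : I} (hi : i ∈ S) {h s : I → ℤˣ} (h1 : h i = 1)
    (hB : Br p S i (h * s)) : ∃ u : I → ℝ, (∀ j ∈ S.erase i, 0 < u j * sg (h j * s j)) ∧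
      ∑ j ∈ S.erase i, |u j| = 1 ∧ ∑ j ∈ S.erase i, u j • p j = sg (s i) • p i := by
  obtain ⟨c, hc1, hc2, hc3, hc4⟩ := hB
  refine ⟨fun j => c j / (- c i) * sg (h j * s j), ?_, ?_, ?_⟩
  · intro j hj
    have := hc1 j (mem_of_mem_erase hj) (ne_of_mem_erase hj)
    rw [mul_assoc, sg_mul_self, mul_one]
    exact div_pos this (by linarith)
  · have e : ∀ j ∈ S.erase i, |c j / (- c i) * sg (h j * s j)| = c j / (- c i) := by
      intro j hj
      have := hc1 j (mem_of_mem_erase hj) (ne_of_mem_erase hj)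
      rw [abs_mul, abs_sg, mul_one, abs_of_pos (div_pos this (by linarith))]
    rw [sum_congr rfl e, ← sum_div]
    have e2 : ∑ j ∈ S.erase i, c j = - c i := by
      have := add_sum_erase S c hi
      linarith
    rw [e2]
    exact div_self (by linarith)
  · have e3 := add_sum_erase S (fun j => (c j * sg ((h * s) j)) • p j) hi
    rw [hc4] at e3
    simp only [Pi.mul_apply, h1, one_mul] at e3
    have e4 : ∑ j ∈ S.erase i, (c j / (- c i) * sg (h j * s j)) • p j =
        (- c i)⁻¹ • ∑ j ∈ S.erase i, (c j * sg (h j * s j)) • p j := by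
      rw [smul_sum]
      refine sum_congr rfl fun j _ => ?_
      rw [smul_smul]
      congr 1
      ring
    rw [e4]
    have e5 : ∑ j ∈ S.erase i, (c j * sg (h j * s j)) • p j = - ((c i * sg (s i)) • p i) := by
      rw [add_comm] at e3
      exact eq_neg_of_add_eq_zero_left e3
    rw [e5, ← neg_smul, smul_smul]
    congr 1
    have : c i ≠ 0 := by linarith
    field_simp

theorem sign_eq {T : Finset I} [Fintype I] {h h' s : I → ℤˣ} (hh : h ∈ HT T) (hh' : h' ∈ HT T)
    {u u' : I → ℝ} (hu : ∀ j ∈ T, 0 < u j * sg (h j * s j))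
    (hu' : ∀ j ∈ T, 0 < u' j * sg (h' j * s j)) (huu : ∀ j ∈ T, 0 ≤ u j * u' j) : h = h' := by
  funext j
  by_cases hj : j ∈ T
  · have h1 := hu j hj
    have h2 := hu' j hj
    have h3 := huu j hj
    have h4 := mul_pos h1 h2
    rw [sg_mul] at h1
    rw [sg_mul] at h2
    have h5 : (u j * sg (h j * s j)) * (u' j * sg (h' j * s j)) =
        (u j * u' j) * (sg (h j) * sg (h' j)) := by
      rw [sg_mul, sg_mul]
      have := sg_mul_self (s j)
      linear_combination (u j * sg (h j) * u' j * sg (h' j)) * this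
    rw [h5] at h4
    apply sg_inj
    rcases sg_cases (h j) with ha | ha <;> rcases sg_cases (h' j) with hb | hb
    · rw [ha, hb]
    · rw [ha, hb] at h4
      linarith
    · rw [ha, hb] at h4
      linarith
    · rw [ha, hb]
  · rw [mem_HT hh hj, mem_HT hh' hj]

/-- a point is in at most two of the eight triangles -/
theorem card_Br_le_two [Fintype I] {p : I → V} (hp : GP p) {S : Finset I} (hS : S.card = 4)
    {i : I} (hi : i ∈ S) (s : I → ℤˣ) [DecidablePred (Br p S i)] :
    #((HT (S.erase i)).filter fun h => Br p S i (h * s)) ≤ 2 := by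
  by_contra hcon
  push Not at hcon
  obtain ⟨h1, m1, h2, m2, h3, m3, n12, n13, n23⟩ := two_lt_card.mp hcon
  rw [mem_filter] at m1 m2 m3
  set T := S.erase i with hT
  have hiT : i ∉ T := by simp [hT]
  obtain ⟨u1, a1, b1, c1⟩ := m1.2.norm hi (mem_HT m1.1 hiT)
  obtain ⟨u2, a2, b2, c2⟩ := m2.2.norm hi (mem_HT m2.1 hiT)
  obtain ⟨u3, a3, b3, c3⟩ := m3.2.norm hi (mem_HT m3.1 hiT)
  have hT3 : T.card = 3 := by rw [hT, card_erase_of_mem hi, hS]
  obtain ⟨a, b, c, hab, hac, hbc, hTe⟩ := card_eq_three.mp hT3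
  have hsum : ∀ w : I → V, ∑ j ∈ T, w j = w a + w b + w c := by
    intro w
    rw [hTe, sum_insert (by simp [hab, hac]), sum_insert (by simp [hbc]), sum_singleton, add_assoc]
  have hmem : ∀ j, j ∈ T ↔ j = a ∨ j = b ∨ j = c := by
    intro j; rw [hTe]; simp
  -- the differences
  have k12 : ∑ j ∈ T, (u1 j - u2 j) • p j = 0 := by
    simp only [sub_smul, sum_sub_distrib]
    rw [c1, c2, sub_self]
  have k13 : ∑ j ∈ T, (u1 j - u3 j) • p j = 0 := by
    simp only [sub_smul, sum_sub_distrib]
    rw [c1, c3, sub_self]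
  rw [hsum] at k12 k13
  have hne : (u1 a - u2 a) ≠ 0 ∨ (u1 b - u2 b) ≠ 0 ∨ (u1 c - u2 c) ≠ 0 := by
    by_contra hc
    push Not at hc
    apply n12
    refine sign_eq m1.1 m2.1 a1 a2 ?_
    intro j hj
    have : u1 j = u2 j := by
      rcases (hmem j).mp hj with h | h | h
      · rw [h]; linarith [hc.1]
      · rw [h]; linarith [hc.2.1]
      · rw [h]; linarith [hc.2.2]
    rw [this]
    exact mul_self_nonneg _
  obtain ⟨t, t1, t2, t3⟩ := kernel3 hp hab hac hbc (u := fun j => u1 j - u3 j)
    (v := fun j => u1 j - u2 j) k13 k12 hne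
  have hu3 : ∀ j ∈ T, u3 j = u1 j - t * (u1 j - u2 j) := by
    intro j hj
    rcases (hmem j).mp hj with h | h | h
    · rw [h]; linarith
    · rw [h]; linarith
    · rw [h]; linarith
  have f0 : ∑ j ∈ T, |u1 j - 0 * (u1 j - u2 j)| = 1 := by
    rw [← b1]; exact sum_congr rfl fun j _ => by ring_nf
  have f1 : ∑ j ∈ T, |u1 j - 1 * (u1 j - u2 j)| = 1 := by
    rw [sum_congr rfl fun j _ => (by rw [one_mul, sub_sub_cancel] :
      |u1 j - 1 * (u1 j - u2 j)| = |u2 j|)]
    exact b2
  have ft : ∑ j ∈ T, |u1 j - t * (u1 j - u2 j)| = 1 := by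
    rw [← b3]; exact sum_congr rfl fun j hj => by rw [hu3 j hj]
  have g0 : ∀ j ∈ T, u1 j - 0 * (u1 j - u2 j) = u1 j := fun j _ => by ring
  have g1 : ∀ j ∈ T, u1 j - 1 * (u1 j - u2 j) = u2 j := fun j _ => by ring
  rcases lt_trichotomy t 0 with ht | ht | ht
  · -- u3, u1, u2
    have := mid u1 (fun j => u1 j - u2 j) ht zero_lt_one (by rw [ft, f0]) (by rw [f1, f0])
    apply n23
    refine sign_eq m2.1 m3.1 a2 a3 fun j hj => ?_
    have h5 := this j hj
    rw [g1 j hj, ← hu3 j hj, mul_comm] at h5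
    exact h5
  · apply n13
    refine sign_eq m1.1 m3.1 a1 a3 fun j hj => ?_
    rw [hu3 j hj, ht, zero_mul, sub_zero]
    exact mul_self_nonneg _
  · rcases lt_trichotomy t 1 with ht1 | ht1 | ht1
    · have := mid u1 (fun j => u1 j - u2 j) ht ht1 (by rw [ft, f0]) (by rw [ft, f1])
      apply n12
      refine sign_eq m1.1 m2.1 a1 a2 fun j hj => ?_
      have h5 := this j hj
      rw [g1 j hj, g0 j hj] at h5
      exact h5
    · apply n23
      refine sign_eq m2.1 m3.1 a2 a3 fun j hj => ?_
      rw [hu3 j hj, ht1, one_mul, sub_sub_cancel]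
      exact mul_self_nonneg _
    · have := mid u1 (fun j => u1 j - u2 j) zero_lt_one ht1 (by rw [f0, f1]) (by rw [ft, f1])
      apply n13
      refine sign_eq m1.1 m3.1 a1 a3 fun j hj => ?_
      have h5 := this j hj
      rw [g0 j hj, ← hu3 j hj] at h5
      exact h5

end Pool.Agent.CSym
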