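import Pool.Agent.CSym.Rainbow

/-!
# Centrally symmetric point sets: counting nonconvex quadruples from four pairs
-/

set_option autoImplicit false

open Finset

namespace Pool.Agent.CSym

variable {I : Type*} [DecidableEq I]

/-- `k` is extreme in `S` for a linear functional that vanishes at another vector. -/
def Top (p : I → V) (S : Finset I) (k : I) : Prop :=
  ∃ l ∈ S, l ≠ k ∧ ∀ j ∈ S, |dt (p l) (p j)| ≤ |dt (p l) (p k)|

theorem Top.not_Br {p : I → V} (hp : GP p) {S : Finset I} {k : I} (hk : k ∈ S)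
    (h : Top p S k) (s : I → ℤˣ) : ¬ Br p S k s := by
  obtain ⟨l, hl, hlk, hmax⟩ := h
  rintro ⟨c, hc1, hc2, hc3, hc4⟩
  have hM : 0 < |dt (p l) (p k)| := abs_pos.mpr (hp.dt_ne hlk)
  set M := |dt (p l) (p k)| with hMdef
  have hcl : 0 < c l := hc1 l hl hlk
  have h1 := congrArg (dt (p l)) hc4
  rw [dt_sum_right, dt_zero_right, ← add_sum_erase S _ hk] at h1
  simp only [dt_smul_right] at h1
  have h2 : (- c k) * M = |∑ j ∈ S.erase k, c j * sg (s j) * dt (p l) (p j)| := by
    have e : ∑ j ∈ S.erase k, c j * sg (s j) * dt (p l) (p j) =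
        - (c k * sg (s k) * dt (p l) (p k)) := by linarith
    rw [e, abs_neg, abs_mul, abs_mul, abs_sg, mul_one, abs_of_neg hc2]
  have h3 : |∑ j ∈ S.erase k, c j * sg (s j) * dt (p l) (p j)| ≤
      ∑ j ∈ (S.erase k).erase l, c j * M := by
    have hl' : l ∈ S.erase k := mem_erase.mpr ⟨hlk, hl⟩
    refine (abs_sum_le_sum_abs _ _).trans ?_
    rw [← add_sum_erase _ _ hl', dt_self, mul_zero, abs_zero, zero_add]
    refine sum_le_sum fun j hj => ?_
    have hj' := mem_of_mem_erase hj
    have hcj := hc1 j (mem_of_mem_erase hj') (ne_of_mem_erase hj')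
    rw [abs_mul, abs_mul, abs_sg, mul_one, abs_of_pos hcj]
    exact mul_le_mul_of_nonneg_left (hmax j (mem_of_mem_erase hj')) hcj.le
  have h4 : ∑ j ∈ (S.erase k).erase l, c j = - c k - c l := by
    have hl' : l ∈ S.erase k := mem_erase.mpr ⟨hlk, hl⟩
    have e1 := add_sum_erase S c hk
    have e2 := add_sum_erase (S.erase k) c hl'
    linarith
  rw [← sum_mul, h4] at h3
  rw [← h2] at h3
  nlinarith

omit [DecidableEq I] in
theorem exists_top2 {p : I → V} (hp : GP p) {S : Finset I} (hS : 2 ≤ S.card) :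
    ∃ k1 ∈ S, ∃ k2 ∈ S, k1 ≠ k2 ∧ Top p S k1 ∧ Top p S k2 := by
  have step : ∀ l ∈ S, ∃ k ∈ S, k ≠ l ∧ ∀ j ∈ S, |dt (p l) (p j)| ≤ |dt (p l) (p k)| := by
    intro l hl
    obtain ⟨k, hk, hmax⟩ := exists_max_image S (fun j => |dt (p l) (p j)|) ⟨l, hl⟩
    refine ⟨k, hk, ?_, hmax⟩
    rintro rfl
    obtain ⟨j, hj, hjk⟩ := exists_mem_ne (by omega : 1 < S.card) k
    have h1 := hmax j hj
    rw [dt_self, abs_zero] at h1
    exact absurd (abs_pos.mpr (hp.dt_ne (Ne.symm hjk))) (not_lt.mpr h1)
  obtain ⟨l, hl⟩ : S.Nonempty := card_pos.mp (by omega)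
  obtain ⟨k1, hk1, n1, m1⟩ := step l hl
  obtain ⟨k2, hk2, n2, m2⟩ := step k1 hk1
  exact ⟨k1, hk1, k2, hk2, Ne.symm n2, ⟨l, hl, Ne.symm n1, m1⟩, ⟨k1, hk1, Ne.symm n2, m2⟩⟩

theorem card_Br_le [Fintype I] {p : I → V} (hp : GP p) {S : Finset I} (hS : S.card = 4)
    {i : I} (hi : i ∈ S) [DecidablePred (Br p S i)] :
    4 * #{s | Br p S i s} ≤ Fintype.card (I → ℤˣ) := by
  have h := avg_le (Br p S i) (HT (S.erase i)) 2 (fun s => card_Br_le_two hp hS hi s)
  rw [card_HT, card_erase_of_mem hi, hS] at h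
  omega

theorem card_rainbow_le [Fintype I] {p : I → V} (hp : GP p) {S : Finset I} (hS : S.card = 4)
    [DecidablePred fun s => ∃ i ∈ S, Br p S i s] :
    2 * #{s | ∃ i ∈ S, Br p S i s} ≤ Fintype.card (I → ℤˣ) := by
  classical
  obtain ⟨k1, hk1, k2, hk2, hne, t1, t2⟩ := exists_top2 hp (by omega : 2 ≤ S.card)
  have hsub : (univ.filter fun s => ∃ i ∈ S, Br p S i s) ⊆
      ((S.erase k1).erase k2).biUnion fun i => univ.filter fun s => Br p S i s := by
    intro s hs
    rw [mem_filter] at hs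
    obtain ⟨i, hi, hB⟩ := hs.2
    have n1 : i ≠ k1 := by
      rintro rfl
      exact t1.not_Br hp hi s hB
    have n2 : i ≠ k2 := by
      rintro rfl
      exact t2.not_Br hp hi s hB
    rw [mem_biUnion]
    exact ⟨i, mem_erase.mpr ⟨n2, mem_erase.mpr ⟨n1, hi⟩⟩, mem_filter.mpr ⟨mem_univ _, hB⟩⟩
  have h1 := (card_le_card hsub).trans card_biUnion_le
  have h2 : ∑ i ∈ (S.erase k1).erase k2, 4 * #{s | Br p S i s} ≤
      ∑ _i ∈ (S.erase k1).erase k2, Fintype.card (I → ℤˣ) :=
    sum_le_sum fun i hi => card_Br_le hp hS (mem_of_mem_erase (mem_of_mem_erase hi))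
  have h3 : ((S.erase k1).erase k2).card = 2 := by
    rw [card_erase_of_mem (mem_erase.mpr ⟨Ne.symm hne, hk2⟩), card_erase_of_mem hk1, hS]
  rw [← mul_sum, sum_const, h3, smul_eq_mul] at h2
  have h4 : #{s | ∃ i ∈ S, Br p S i s} ≤ ∑ i ∈ (S.erase k1).erase k2, #{s | Br p S i s} := h1
  omega

/-! ### the lower bound -/

/-- the vector with index `i` is inside the convex hull of the other pairs -/
def Inn (p : I → V) (S : Finset I) (i : I) : Prop :=
  ∃ x : I → ℝ, ∑ j ∈ S.erase i, |x j| < 1 ∧ ∑ j ∈ S.erase i, x j • p j = p i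

/-- the sign of a real number (`1` for zero) -/
noncomputable def sn (x : ℝ) : ℤˣ := if 0 ≤ x then 1 else -1

theorem sg_sn (x : ℝ) : |x| * sg (sn x) = x := by
  unfold sn
  split_ifs with h
  · rw [abs_of_nonneg h, sg_one, mul_one]
  · rw [abs_of_neg (not_le.mp h), sg_neg, sg_one]; ring

theorem sn_mul {x y : ℝ} (h : sn x = sn y) : 0 ≤ x * y := by
  unfold sn at h
  split_ifs at h with h1 h2 h2
  · exact mul_nonneg h1 h2
  · exact absurd h (by decide)
  · exact absurd h (by decide)
  · exact (mul_pos_of_neg_of_neg (not_le.mp h1) (not_le.mp h2)).le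

/-- a point of norm one on the fibre gives a triangle that contains the point -/
theorem Br_of_sum_eq_one [Fintype I] {p : I → V} (hp : GP p) {S : Finset I} (hS : S.card = 4)
    {i : I} (hi : i ∈ S) (s : I → ℤˣ) {u : I → ℝ} (h1 : ∑ j ∈ S.erase i, |u j| = 1)
    (h2 : ∑ j ∈ S.erase i, u j • p j = sg (s i) • p i) :
    Br p S i ((fun j => if j ∈ S.erase i then sn (u j) * s j else 1) * s) := by
  set T := S.erase i with hT
  have hiT : i ∉ T := by simp [hT]
  have hsg : ∀ j ∈ T, sg (((fun j => if j ∈ T then sn (u j) * s j else 1) * s) j) =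
      sg (sn (u j)) := by
    intro j hj
    rw [Pi.mul_apply, if_pos hj, mul_assoc, sg_mul, sg_mul, sg_mul_self, mul_one]
  have hu : ∀ j ∈ T, (|u j| * sg (sn (u j))) • p j = u j • p j := by
    intro j _; rw [sg_sn]
  -- no coordinate is zero
  have hne : ∀ a ∈ T, u a ≠ 0 := by
    intro a ha h0
    have hT2 : (T.erase a).card = 2 := by
      rw [card_erase_of_mem ha, hT, card_erase_of_mem hi, hS]
    obtain ⟨b, c, hbc, hbcT⟩ := card_eq_two.mp hT2
    have hb : b ∈ T.erase a := by rw [hbcT]; simp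
    have hc : c ∈ T.erase a := by rw [hbcT]; simp
    have hbi : b ≠ i := by
      rintro rfl
      exact hiT (mem_of_mem_erase hb)
    have hci : c ≠ i := by
      rintro rfl
      exact hiT (mem_of_mem_erase hc)
    have e1 : |u b| + |u c| = 1 := by
      rw [← add_sum_erase T _ ha, h0, abs_zero, zero_add, hbcT, sum_pair hbc] at h1
      exact h1
    have e2 : u b • p b + u c • p c = sg (s i) • p i := by
      rw [← add_sum_erase T _ ha, h0, zero_smul, zero_add, hbcT, sum_pair hbc] at h2
      exact h2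
    refine hp (b, sn (u b)) (c, sn (u c)) (i, s i) (by simp [hbc]) (by simp [hci]) (by simp [hbi])
      ?_
    refine ar_eq_zero_of_dep (a := -|u b|) (b := -|u c|) (c := 1) (by linarith) ?_ one_ne_zero
    simp only [pt, smul_smul]
    rw [one_mul, ← e2, neg_mul, neg_mul, sg_sn, sg_sn, neg_smul, neg_smul]
    abel
  refine ⟨fun j => if j = i then -1 else |u j|, ?_, by simp, ?_, ?_⟩
  · intro j hj hji
    simp only [if_neg hji]
    exact abs_pos.mpr (hne j (mem_erase.mpr ⟨hji, hj⟩))
  · rw [← add_sum_erase S _ hi, if_pos rfl]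
    have : ∑ j ∈ S.erase i, (if j = i then (-1 : ℝ) else |u j|) = ∑ j ∈ T, |u j| :=
      sum_congr rfl fun j hj => by rw [if_neg (ne_of_mem_erase hj)]
    rw [this, h1]
    ring
  · rw [← add_sum_erase S _ hi]
    beta_reduce
    rw [if_pos rfl]
    have e : ∑ j ∈ S.erase i, ((if j = i then (-1 : ℝ) else |u j|) *
        sg (((fun j => if j ∈ T then sn (u j) * s j else 1) * s) j)) • p j =
        ∑ j ∈ T, u j • p j := by
      refine sum_congr rfl fun j hj => ?_
      rw [if_neg (ne_of_mem_erase hj), hsg j hj, hu j hj]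
    rw [e, h2, Pi.mul_apply, if_neg hiT, one_mul, neg_one_mul, neg_smul]
    simp

theorem two_le_card_Br [Fintype I] {p : I → V} (hp : GP p) {S : Finset I} (hS : S.card = 4)
    {i : I} (hi : i ∈ S) (hin : Inn p S i) (s : I → ℤˣ) [DecidablePred (Br p S i)] :
    2 ≤ #((HT (S.erase i)).filter fun h => Br p S i (h * s)) := by
  obtain ⟨x, hx1, hx2⟩ := hin
  set T := S.erase i with hT
  have hT3 : T.card = 3 := by rw [hT, card_erase_of_mem hi, hS]
  obtain ⟨a, b, c, hab, hac, hbc, hTe⟩ := card_eq_three.mp hT3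
  have hsum : ∀ {W : Type} [AddCommMonoid W] (w : I → W), ∑ j ∈ T, w j = w a + w b + w c := by
    intro W _ w
    rw [hTe, sum_insert (by simp [hab, hac]), sum_insert (by simp [hbc]), sum_singleton, add_assoc]
  set κ : I → ℝ := fun j => if j = a then dt (p b) (p c) else if j = b then dt (p c) (p a) else
    dt (p a) (p b) with hκ
  have κa : κ a = dt (p b) (p c) := by simp [hκ]
  have κb : κ b = dt (p c) (p a) := by simp [hκ, Ne.symm hab]
  have κc : κ c = dt (p a) (p b) := by simp [hκ, Ne.symm hac, Ne.symm hbc]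
  have hκ0 : ∑ j ∈ T, κ j • p j = 0 := by
    rw [hsum, κa, κb, κc]
    ext
    · simp only [dt, Prod.fst_add, Prod.smul_fst, smul_eq_mul, Prod.fst_zero]; ring
    · simp only [dt, Prod.snd_add, Prod.smul_snd, smul_eq_mul, Prod.snd_zero]; ring
  have hκa : κ a ≠ 0 := by rw [κa]; exact hp.dt_ne hbc
  clear_value κ
  set y : I → ℝ := fun j => sg (s i) * x j with hy
  have hy1 : ∑ j ∈ T, |y j| < 1 := by
    have : ∑ j ∈ T, |y j| = ∑ j ∈ T, |x j| := sum_congr rfl fun j _ => by
      rw [hy]; simp only; rw [abs_mul, abs_sg, one_mul]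
    rw [this]; exact hx1
  have hy2 : ∑ j ∈ T, y j • p j = sg (s i) • p i := by
    rw [← hx2, smul_sum]
    exact sum_congr rfl fun j _ => by rw [hy]; simp only; rw [mul_smul]
  clear_value y
  set f : ℝ → ℝ := fun t => ∑ j ∈ T, |y j + t * κ j| with hf
  have hfc : Continuous f := by
    rw [hf]
    exact continuous_finsetSum _ fun j _ => by fun_prop
  have hf0 : f 0 < 1 := by
    rw [hf]; simpa using hy1
  set R : ℝ := (1 + |y a|) / |κ a| with hR
  have hR0 : 0 < R := by
    have := abs_pos.mpr hκa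
    have := abs_nonneg (y a)
    positivity
  have hfR : ∀ t : ℝ, |t| = R → 1 ≤ f t := by
    intro t ht
    have haT : a ∈ T := by rw [hTe]; simp
    have h1 : |y a + t * κ a| ≤ f t :=
      single_le_sum (f := fun j => |y j + t * κ j|) (fun j _ => abs_nonneg _) haT
    have h2 : |t * κ a| - |y a| ≤ |y a + t * κ a| := by
      have := abs_sub_abs_le_abs_add (t * κ a) (y a)
      rwa [add_comm (t * κ a)] at this
    have h3 : |t * κ a| = 1 + |y a| := by
      rw [abs_mul, ht, hR]
      field_simp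
    linarith
  have hfib : ∀ t : ℝ, ∑ j ∈ T, (y j + t * κ j) • p j = sg (s i) • p i := by
    intro t
    have : ∑ j ∈ T, (y j + t * κ j) • p j = ∑ j ∈ T, y j • p j + t • ∑ j ∈ T, κ j • p j := by
      rw [smul_sum, ← sum_add_distrib]
      exact sum_congr rfl fun j _ => by rw [add_smul, mul_smul]
    rw [this, hκ0, smul_zero, add_zero, hy2]
  obtain ⟨t2, ht2, hft2⟩ := intermediate_value_Icc hR0.le hfc.continuousOn
    (show (1 : ℝ) ∈ Set.Icc (f 0) (f R) from ⟨hf0.le, hfR R (abs_of_pos hR0)⟩)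
  obtain ⟨t1, ht1, hft1⟩ := intermediate_value_Icc' (a := -R) (b := 0) (by linarith)
    hfc.continuousOn (show (1 : ℝ) ∈ Set.Icc (f 0) (f (-R)) from
      ⟨hf0.le, hfR (-R) (by rw [abs_neg, abs_of_pos hR0])⟩)
  have ht2' : 0 < t2 := by
    rcases ht2.1.eq_or_lt with h | h
    · rw [← h] at hft2; linarith
    · exact h
  have ht1' : t1 < 0 := by
    rcases ht1.2.eq_or_lt with h | h
    · rw [h] at hft1; linarith
    · exact h
  have b1 := Br_of_sum_eq_one hp hS hi s (u := fun j => y j + t1 * κ j) hft1 (hfib t1)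
  have b2 := Br_of_sum_eq_one hp hS hi s (u := fun j => y j + t2 * κ j) hft2 (hfib t2)
  set h1 : I → ℤˣ := fun j => if j ∈ S.erase i then sn (y j + t1 * κ j) * s j else 1 with hh1
  set h2 : I → ℤˣ := fun j => if j ∈ S.erase i then sn (y j + t2 * κ j) * s j else 1 with hh2
  have m1 : h1 ∈ HT T := by
    rw [HT, Fintype.mem_piFinset]
    intro j
    rw [hh1]
    by_cases hj : j ∈ T
    · rw [if_pos hj]; exact mem_univ _
    · rw [if_neg hj]; simp only; rw [if_neg hj]; exact mem_singleton_self _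
  have m2 : h2 ∈ HT T := by
    rw [HT, Fintype.mem_piFinset]
    intro j
    rw [hh2]
    by_cases hj : j ∈ T
    · rw [if_pos hj]; exact mem_univ _
    · rw [if_neg hj]; simp only; rw [if_neg hj]; exact mem_singleton_self _
  have hne : h1 ≠ h2 := by
    intro heq
    -- the two points have the same signs, so `f` is affine between them
    have hs : ∀ j ∈ T, 0 ≤ (y j + t1 * κ j) * (y j + t2 * κ j) := by
      intro j hj
      have e := congrFun heq j
      rw [hh1, hh2] at e
      simp only at e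
      rw [if_pos hj, if_pos hj] at e
      exact sn_mul (mul_right_cancel e)
    have e1 : (t2 - t1) * f 0 = t2 * f t1 - t1 * f t2 := by
      rw [hf]
      simp only
      rw [mul_sum, mul_sum, mul_sum, ← sum_sub_distrib]
      refine sum_congr rfl fun j hj => ?_
      have h3 := hs j hj
      rw [zero_mul, add_zero]
      have e2 : (t2 - t1) * y j = t2 * (y j + t1 * κ j) - t1 * (y j + t2 * κ j) := by ring
      have e3 : (t2 - t1) * |y j| = |(t2 - t1) * y j| := by
        rw [abs_mul, abs_of_pos (by linarith : (0 : ℝ) < t2 - t1)]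
      rw [e3, e2]
      rcases le_total 0 (y j + t1 * κ j) with hp1 | hp1
      · rcases hp1.eq_or_lt with hz | hz
        · rw [← hz, abs_zero, mul_zero, zero_sub, zero_sub, abs_neg, abs_mul,
            abs_of_neg ht1']
          ring
        · have hq : 0 ≤ y j + t2 * κ j := by
            by_contra hc
            push Not at hc
            nlinarith
          rw [abs_of_nonneg hp1, abs_of_nonneg hq, abs_of_nonneg]
          nlinarith
      · rcases hp1.eq_or_lt with hz | hz
        · rw [hz, abs_zero, mul_zero, zero_sub, zero_sub, abs_neg, abs_mul,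
            abs_of_neg ht1']
          ring
        · have hq : y j + t2 * κ j ≤ 0 := by
            by_contra hc
            push Not at hc
            nlinarith
          rw [abs_of_nonpos hp1, abs_of_nonpos hq, abs_of_nonpos]
          · ring
          · nlinarith
    rw [hft1, hft2] at e1
    nlinarith
  have hsub : {h1, h2} ⊆ (HT T).filter fun h => Br p S i (h * s) := by
    intro h hh
    rw [mem_insert, mem_singleton] at hh
    rcases hh with rfl | rfl
    · exact mem_filter.mpr ⟨m1, b1⟩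
    · exact mem_filter.mpr ⟨m2, b2⟩
  have := card_le_card hsub
  rwa [card_pair hne] at this

/-- a quadruple has at most one inner point -/
theorem Br.unique {p : I → V} (hp : GP p) {S : Finset I} (hS : S.card = 4) {i j : I}
    (hi : i ∈ S) (hj : j ∈ S) (hij : i ≠ j) {s : I → ℤˣ} (h1 : Br p S i s) (h2 : Br p S j s) :
    False := by
  obtain ⟨c, c1, c2, c3, c4⟩ := h1
  obtain ⟨d, d1, d2, d3, d4⟩ := h2
  have hcard : ((S.erase i).erase j).card = 2 := by
    rw [card_erase_of_mem (mem_erase.mpr ⟨Ne.symm hij, hj⟩), card_erase_of_mem hi, hS]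
  obtain ⟨a, b, hab, hTe⟩ := card_eq_two.mp hcard
  have ha : a ∈ (S.erase i).erase j := by rw [hTe]; simp
  have hb : b ∈ (S.erase i).erase j := by rw [hTe]; simp
  have haj : a ≠ j := ne_of_mem_erase ha
  have hbj : b ≠ j := ne_of_mem_erase hb
  have hai : a ≠ i := ne_of_mem_erase (mem_of_mem_erase ha)
  have hbi : b ≠ i := ne_of_mem_erase (mem_of_mem_erase hb)
  have haS : a ∈ S := mem_of_mem_erase (mem_of_mem_erase ha)
  have hbS : b ∈ S := mem_of_mem_erase (mem_of_mem_erase hb)
  set e : I → ℝ := fun k => d i * c k - c i * d k with he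
  have e0 : e i = 0 := by rw [he]; simp only; ring
  have hsum : ∀ {W : Type} [AddCommMonoid W] (w : I → W),
      ∑ k ∈ S, w k = w i + (w j + (w a + w b)) := by
    intro W _ w
    rw [← add_sum_erase S w hi, ← add_sum_erase (S.erase i) w (mem_erase.mpr ⟨Ne.symm hij, hj⟩),
      hTe, sum_pair hab]
  have e1 : e j + e a + e b = 0 := by
    have h3 : ∑ k ∈ S, e k = 0 := by
      rw [he]
      simp only
      rw [sum_sub_distrib, ← mul_sum, ← mul_sum, c3, d3]
      ring
    rw [hsum, e0] at h3
    linarith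
  have e2 : (e j * sg (s j)) • p j + (e a * sg (s a)) • p a + (e b * sg (s b)) • p b = 0 := by
    have h3 : ∑ k ∈ S, (e k * sg (s k)) • p k = 0 := by
      have : ∀ k ∈ S, (e k * sg (s k)) • p k =
          d i • ((c k * sg (s k)) • p k) - c i • ((d k * sg (s k)) • p k) := by
        intro k _
        rw [smul_smul, smul_smul, ← sub_smul]
        congr 1
        rw [he]
        ring
      rw [sum_congr rfl this, sum_sub_distrib, ← smul_sum, ← smul_sum, c4, d4]
      simp
    rw [hsum, e0, zero_mul, zero_smul, zero_add] at h3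
    rw [add_assoc]
    exact h3
  have hdi : 0 < d i := d1 i hi hij
  have eb : 0 < e b := by
    have := c1 b hbS hbi
    have := d1 b hbS hbj
    rw [he]
    simp only
    nlinarith
  refine hp (j, s j) (a, s a) (b, s b) (by simp [Ne.symm haj]) (by simp [hab])
    (by simp [Ne.symm hbj]) ?_
  refine ar_eq_zero_of_dep e1 ?_ eb.ne'
  simp only [pt, smul_smul]
  exact e2

theorem card_rainbow_ge [Fintype I] {p : I → V} (hp : GP p) {S : Finset I} (hS : S.card = 4)
    {i j : I} (hi : i ∈ S) (hj : j ∈ S) (hij : i ≠ j) (h1 : Inn p S i) (h2 : Inn p S j)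
    [DecidablePred fun s => ∃ i ∈ S, Br p S i s] :
    Fintype.card (I → ℤˣ) ≤ 2 * #{s | ∃ i ∈ S, Br p S i s} := by
  classical
  have a1 := avg_ge (Br p S i) (HT (S.erase i)) 2 (fun s => two_le_card_Br hp hS hi h1 s)
  have a2 := avg_ge (Br p S j) (HT (S.erase j)) 2 (fun s => two_le_card_Br hp hS hj h2 s)
  rw [card_HT, card_erase_of_mem hi, hS] at a1
  rw [card_HT, card_erase_of_mem hj, hS] at a2
  have hdisj : Disjoint (univ.filter fun s => Br p S i s) (univ.filter fun s => Br p S j s) := by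
    rw [disjoint_left]
    intro s hs hs'
    rw [mem_filter] at hs hs'
    exact hs.2.unique hp hS hi hj hij hs'.2
  have hsub : (univ.filter fun s => Br p S i s) ∪ (univ.filter fun s => Br p S j s) ⊆
      univ.filter fun s => ∃ i ∈ S, Br p S i s := by
    intro s hs
    rw [mem_union, mem_filter, mem_filter] at hs
    rw [mem_filter]
    rcases hs with hs | hs
    · exact ⟨mem_univ _, i, hi, hs.2⟩
    · exact ⟨mem_univ _, j, hj, hs.2⟩
  have := card_le_card hsub
  rw [card_union_of_disjoint hdisj] at this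
  omega

end Pool.Agent.CSym
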