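import Pool.Agent.CSym.Quad

/-!
# From symmetric point sets to signed families
-/

set_option autoImplicit false

open Finset

namespace Pool.Agent.CSym

/-- lexicographic positivity -/
def Pos (x : V) : Prop := 0 < x.1 ∨ (x.1 = 0 ∧ 0 < x.2)

theorem pos_or {x : V} (hx : x ≠ 0) : Pos x ∨ Pos (-x) := by
  unfold Pos
  rcases lt_trichotomy x.1 0 with h | h | h
  · right; left; simpa using h
  · rcases lt_trichotomy x.2 0 with h' | h' | h'
    · right; right; simpa using ⟨h, h'⟩
    · exact absurd (Prod.ext h h') hx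
    · left; right; exact ⟨h, h'⟩
  · left; left; exact h

theorem not_pos_neg {x : V} (h : Pos x) : ¬ Pos (-x) := by
  rintro (h' | ⟨h1, h2⟩)
  · simp only [Prod.fst_neg] at h'
    rcases h with h | ⟨h, _⟩ <;> linarith
  · simp only [Prod.fst_neg, Prod.snd_neg] at h1 h2
    rcases h with h | ⟨_, h⟩ <;> linarith

theorem Pos.ne_zero {x : V} (h : Pos x) : x ≠ 0 := by
  rintro rfl
  rcases h with h | ⟨_, h⟩ <;> simp at h

theorem zero_notMem {P : Finset V} (hS : Sym P) (hG : GPV P) {m : ℕ} (hP : P.card = 2 * m) :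
    (0 : V) ∉ P := by
  intro h0
  by_cases h : ∃ x ∈ P, x ≠ 0
  · obtain ⟨x, hx, hx0⟩ := h
    have hne : x ≠ -x := by
      intro h1
      apply hx0
      ext
      · have := congrArg Prod.fst h1; simp only [Prod.fst_neg] at this
        simp only [Prod.fst_zero]; linarith
      · have := congrArg Prod.snd h1; simp only [Prod.snd_neg] at this
        simp only [Prod.snd_zero]; linarith
    refine hG x hx 0 h0 (-x) (hS x hx) hx0 (fun h1 => hx0 (neg_eq_zero.mp h1.symm)) hne ?_
    simp only [ar, dt, Prod.fst_zero, Prod.snd_zero, Prod.fst_neg, Prod.snd_neg]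
    ring
  · push Not at h
    have : P = {0} := by
      ext x
      rw [mem_singleton]
      exact ⟨h x, fun hx => hx ▸ h0⟩
    rw [this, card_singleton] at hP
    omega

section

variable (P : Finset V)

open Classical in
/-- the positive half -/
noncomputable def half : Finset V := P.filter Pos

theorem mem_half {x : V} : x ∈ half P ↔ x ∈ P ∧ Pos x := by
  classical
  rw [half, mem_filter]

/-- the family of points -/
def pp : half P → V := fun i => i.1

variable {P}

theorem pt_pp_mem (hS : Sym P) (x : half P × ℤˣ) : pt (pp P) x ∈ P := by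
  obtain ⟨⟨i, hi⟩, s⟩ := x
  have hiP : i ∈ P := ((mem_half P).mp hi).1
  rcases Int.units_eq_one_or s with rfl | rfl
  · rw [pt_one]; exact hiP
  · rw [pt_neg_one]; exact hS i hiP

theorem pt_pp_inj : Function.Injective (pt (pp P)) := by
  rintro ⟨⟨i, hi⟩, s⟩ ⟨⟨j, hj⟩, t⟩ h
  have hi' : Pos i := ((mem_half P).mp hi).2
  have hj' : Pos j := ((mem_half P).mp hj).2
  rcases Int.units_eq_one_or s with rfl | rfl <;> rcases Int.units_eq_one_or t with rfl | rfl
  · rw [pt_one, pt_one] at h
    have h' : i = j := h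
    subst h'; rfl
  · rw [pt_one, pt_neg_one] at h
    have h' : i = -j := h
    rw [h'] at hi'
    exact absurd hi' (not_pos_neg hj')
  · rw [pt_one, pt_neg_one] at h
    have h' : -i = j := h
    rw [← h'] at hj'
    exact absurd hj' (not_pos_neg hi')
  · rw [pt_neg_one, pt_neg_one] at h
    have h' : -i = -j := h
    have h'' : i = j := neg_injective h'
    subst h''; rfl

/-- the embedding -/
def emb (P : Finset V) : half P × ℤˣ ↪ V := ⟨pt (pp P), pt_pp_inj⟩

theorem map_emb (hS : Sym P) (h0 : (0 : V) ∉ P) :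
    (univ : Finset (half P × ℤˣ)).map (emb P) = P := by
  ext x
  rw [mem_map]
  constructor
  · rintro ⟨y, -, rfl⟩
    exact pt_pp_mem hS y
  · intro hx
    have hx0 : x ≠ 0 := fun h => h0 (h ▸ hx)
    rcases pos_or hx0 with h | h
    · refine ⟨(⟨x, (mem_half P).mpr ⟨hx, h⟩⟩, 1), mem_univ _, ?_⟩
      exact pt_one (pp P) _
    · refine ⟨(⟨-x, (mem_half P).mpr ⟨hS x hx, h⟩⟩, -1), mem_univ _, ?_⟩
      refine (pt_neg_one (pp P) _).trans ?_
      exact neg_neg x

theorem card_half (hS : Sym P) (h0 : (0 : V) ∉ P) {m : ℕ} (hP : P.card = 2 * m) :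
    Fintype.card (half P) = m := by
  have h1 := congrArg Finset.card (map_emb hS h0)
  rw [card_map, card_univ, Fintype.card_prod, hP] at h1
  have h2 : Fintype.card ℤˣ = 2 := rfl
  rw [h2] at h1
  omega

theorem gp_pp (hS : Sym P) (hG : GPV P) : GP (pp P) := by
  intro x y z hxy hyz hxz
  exact hG _ (pt_pp_mem hS x) _ (pt_pp_mem hS y) _ (pt_pp_mem hS z) (fun h => hxy (pt_pp_inj h))
    (fun h => hyz (pt_pp_inj h)) (fun h => hxz (pt_pp_inj h))

theorem badV_map (Q : Finset (half P × ℤˣ)) : BadV (Q.map (emb P)) ↔ Bad (pp P) Q := by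
  constructor
  · rintro ⟨x, hx, c, c1, c2, c3, c4⟩
    obtain ⟨y, hy, rfl⟩ := mem_map.mp hx
    rw [sum_map] at c3 c4
    refine ⟨y, hy, fun z => c (emb P z), ?_, c2, c3, c4⟩
    intro z hz hzy
    exact c1 _ (mem_map_of_mem _ hz) fun h => hzy ((emb P).injective h)
  · rintro ⟨x, hx, c, c1, c2, c3, c4⟩
    have hext : ∀ y, Function.extend (emb P) c 0 (emb P y) = c y :=
      fun y => (emb P).injective.extend_apply c 0 y
    refine ⟨emb P x, mem_map_of_mem _ hx, Function.extend (emb P) c 0, ?_, ?_, ?_, ?_⟩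
    · intro z hz hzx
      obtain ⟨y, hy, rfl⟩ := mem_map.mp hz
      rw [hext]
      exact c1 y hy fun h => hzx (by rw [h])
    · rw [hext]; exact c2
    · rw [sum_map]
      simp only [hext]
      exact c3
    · rw [sum_map]
      simp only [hext]
      exact c4

theorem convexQuads_add (hS : Sym P) (hG : GPV P) {m : ℕ} (hP : P.card = 2 * m) :
    convexQuads P + NB (pp P) = (2 * m).choose 4 := by
  classical
  have h0 := zero_notMem hS hG hP
  have h1 : (P.powersetCard 4).card = (2 * m).choose 4 := by rw [card_powersetCard, hP]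
  rw [← h1, ← card_filter_add_card_filter_not (s := P.powersetCard 4)
    (fun Q : Finset V => ConvexIndependent ℝ (fun x : ↥(Q : Set V) => (x : V))), convexQuads]
  congr 1
  rw [NB]
  apply card_bij (fun Q _ => Q.map (emb P))
  · intro Q hQ
    rw [mem_filter, mem_powersetCard] at hQ
    have hsub : Q.map (emb P) ⊆ P := by
      have h := map_subset_map (f := emb P) |>.mpr hQ.1.1
      rwa [map_emb hS h0] at h
    have hcard : (Q.map (emb P)).card = 4 := by rw [card_map]; exact hQ.1.2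
    rw [mem_filter, mem_powersetCard, convexIndependent_iff hcard (hG.mono hsub), not_not,
      badV_map]
    exact ⟨⟨hsub, hcard⟩, hQ.2⟩
  · intro Q _ Q' _ h
    exact map_injective _ h
  · intro Q hQ
    rw [mem_filter, mem_powersetCard] at hQ
    obtain ⟨⟨hsub, hcard⟩, hc⟩ := hQ
    rw [convexIndependent_iff hcard (hG.mono hsub), not_not] at hc
    have hQm : ∃ Q' : Finset (half P × ℤˣ), Q'.map (emb P) = Q := by
      rw [← map_emb hS h0, subset_map_iff] at hsub
      obtain ⟨u, -, hu⟩ := hsub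
      exact ⟨u, hu.symm⟩
    obtain ⟨Q', rfl⟩ := hQm
    refine ⟨Q', ?_, rfl⟩
    rw [mem_filter, mem_powersetCard]
    rw [card_map] at hcard
    exact ⟨⟨subset_univ _, hcard⟩, (badV_map Q').mp hc⟩

end

/-! ### binomial identities -/

theorem choose_two_mul (m : ℕ) : (2 * m).choose 2 = 4 * m.choose 2 + m ∧
    (2 * m).choose 3 = 8 * m.choose 3 + 4 * m.choose 2 ∧
    (2 * m).choose 4 = 16 * m.choose 4 + 12 * m.choose 3 + m.choose 2 := by
  induction m with
  | zero => simp
  | succ m ih =>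
    obtain ⟨h2, h3, h4⟩ := ih
    have e : 2 * (m + 1) = 2 * m + 1 + 1 := by ring
    have p1 : (m + 1).choose 2 = m.choose 1 + m.choose 2 := rfl
    have p2 : (m + 1).choose 3 = m.choose 2 + m.choose 3 := rfl
    have p3 : (m + 1).choose 4 = m.choose 3 + m.choose 4 := rfl
    have q1 : (2 * m + 1 + 1).choose 2 = (2 * m + 1).choose 1 + (2 * m + 1).choose 2 := rfl
    have q2 : (2 * m + 1 + 1).choose 3 = (2 * m + 1).choose 2 + (2 * m + 1).choose 3 := rfl
    have q3 : (2 * m + 1 + 1).choose 4 = (2 * m + 1).choose 3 + (2 * m + 1).choose 4 := rfl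
    have r1 : (2 * m + 1).choose 2 = (2 * m).choose 1 + (2 * m).choose 2 := rfl
    have r2 : (2 * m + 1).choose 3 = (2 * m).choose 2 + (2 * m).choose 3 := rfl
    have r3 : (2 * m + 1).choose 4 = (2 * m).choose 3 + (2 * m).choose 4 := rfl
    have o1 : m.choose 1 = m := Nat.choose_one_right m
    have o2 : (2 * m).choose 1 = 2 * m := Nat.choose_one_right _
    have o3 : (2 * m + 1).choose 1 = 2 * m + 1 := Nat.choose_one_right _
    rw [e]
    omega

/-- the minimum value -/
def minVal (m : ℕ) : ℕ := 8 * m.choose 4 + 6 * m.choose 3 + m.choose 2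

theorem two_minVal (m : ℕ) : 2 * minVal m = (2 * m).choose 4 + m.choose 2 := by
  have := (choose_two_mul m).2.2
  rw [minVal]
  omega

/-! ### nested triples -/

/-- `x` lies in the parallelogram with vertices `±y, ±z`. -/
def InPar (x y z : V) : Prop := x ∈ convexHull ℝ ({y, -y, z, -z} : Set V)

/-- In every triple of pairs `±x, ±y, ±z` of points of `P` one of the pairs lies inside the
parallelogram with the other two pairs as its vertices. -/
def AllNested (P : Finset V) : Prop :=
  ∀ x ∈ P, ∀ y ∈ P, ∀ z ∈ P, x ≠ y → x ≠ -y → y ≠ z → y ≠ -z → x ≠ z → x ≠ -z →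
    InPar x y z ∨ InPar y z x ∨ InPar z x y

theorem inPar_le {x y z : V} (h : InPar x y z) : ∃ s t : ℝ, |s| + |t| ≤ 1 ∧ x = s • y + t • z := by
  have hconv : Convex ℝ {x : V | ∃ s t : ℝ, |s| + |t| ≤ 1 ∧ x = s • y + t • z} := by
    rintro _ ⟨s, t, h1, rfl⟩ _ ⟨s', t', h2, rfl⟩ a b ha hb hab
    refine ⟨a * s + b * s', a * t + b * t', ?_, ?_⟩
    · have e1 : |a * s + b * s'| ≤ a * |s| + b * |s'| := by
        refine (abs_add_le _ _).trans ?_
        rw [abs_mul, abs_mul, abs_of_nonneg ha, abs_of_nonneg hb]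
      have e2 : |a * t + b * t'| ≤ a * |t| + b * |t'| := by
        refine (abs_add_le _ _).trans ?_
        rw [abs_mul, abs_mul, abs_of_nonneg ha, abs_of_nonneg hb]
      nlinarith [mul_le_mul_of_nonneg_left h1 ha, mul_le_mul_of_nonneg_left h2 hb]
    · simp only [smul_add, add_smul, smul_smul]
      abel
  refine convexHull_min ?_ hconv h
  intro w hw
  simp only [Set.mem_insert_iff, Set.mem_singleton_iff] at hw
  rcases hw with rfl | rfl | rfl | rfl
  · exact ⟨1, 0, by simp, by simp⟩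
  · exact ⟨-1, 0, by simp, by simp⟩
  · exact ⟨0, 1, by simp, by simp⟩
  · exact ⟨0, -1, by simp, by simp⟩

theorem inPar_of_lt {x y z : V} {s t : ℝ} (h : |s| + |t| < 1) (hx : x = s • y + t • z) :
    InPar x y z := by
  set r := 1 - |s| - |t| with hr
  have hr0 : 0 < r := by rw [hr]; linarith
  have hmem : ∀ i : Fin 4, (![y, -y, z, -z] : Fin 4 → V) i ∈
      convexHull ℝ ({y, -y, z, -z} : Set V) := by
    intro i
    apply subset_convexHull
    fin_cases i <;> simp
  have h0 : ∀ i ∈ (univ : Finset (Fin 4)), 0 ≤ (![(|s| + s) / 2 + r / 2, (|s| - s) / 2 + r / 2,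
      (|t| + t) / 2, (|t| - t) / 2] : Fin 4 → ℝ) i := by
    intro i _
    have a1 := neg_abs_le s
    have a2 := le_abs_self s
    have a3 := neg_abs_le t
    have a4 := le_abs_self t
    fin_cases i
    · show 0 ≤ (|s| + s) / 2 + r / 2; linarith
    · show 0 ≤ (|s| - s) / 2 + r / 2; linarith
    · show 0 ≤ (|t| + t) / 2; linarith
    · show 0 ≤ (|t| - t) / 2; linarith
  have h1 : ∑ i, (![(|s| + s) / 2 + r / 2, (|s| - s) / 2 + r / 2,
      (|t| + t) / 2, (|t| - t) / 2] : Fin 4 → ℝ) i = 1 := by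
    simp only [Fin.sum_univ_four]
    show (|s| + s) / 2 + r / 2 + ((|s| - s) / 2 + r / 2) + (|t| + t) / 2 + (|t| - t) / 2 = 1
    rw [hr]; ring
  have h2 := (convex_convexHull ℝ ({y, -y, z, -z} : Set V)).sum_mem h0 h1 fun i _ => hmem i
  rw [Fin.sum_univ_four] at h2
  have h3 : x = ((|s| + s) / 2 + r / 2) • y + ((|s| - s) / 2 + r / 2) • (-y) +
      ((|t| + t) / 2) • z + ((|t| - t) / 2) • (-z) := by
    rw [hx, smul_neg, smul_neg, ← sub_eq_add_neg, ← sub_eq_add_neg, ← sub_smul,
      add_sub_assoc, ← sub_smul]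
    congr 2 <;> ring
  rw [InPar, h3]
  exact h2

theorem inPar_iff {P : Finset V} (hG : GPV P) (hS : Sym P) {x y z : V} (hx : x ∈ P) (hy : y ∈ P)
    (hz : z ∈ P) (hxy : x ≠ y) (hxy' : x ≠ -y) (hyz : y ≠ z) (hyz' : y ≠ -z) (hxz : x ≠ z)
    (hxz' : x ≠ -z) : InPar x y z ↔ ∃ s t : ℝ, |s| + |t| < 1 ∧ x = s • y + t • z := by
  constructor
  · intro h
    obtain ⟨s, t, hst, he⟩ := inPar_le h
    refine ⟨s, t, lt_of_le_of_ne hst ?_, he⟩
    intro h1
    have key : ∀ (w : V), w ∈ P → ∀ a : ℝ, ∃ w' ∈ P, (w' = w ∨ w' = -w) ∧ a • w = |a| • w' := by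
      intro w hw a
      rcases le_total 0 a with ha | ha
      · exact ⟨w, hw, Or.inl rfl, by rw [abs_of_nonneg ha]⟩
      · exact ⟨-w, hS w hw, Or.inr rfl, by rw [abs_of_nonpos ha, smul_neg, neg_smul, neg_neg]⟩
    obtain ⟨y', hy', hy'', ey⟩ := key y hy s
    obtain ⟨z', hz', hz'', ez⟩ := key z hz t
    have n1 : y' ≠ z' := by
      rcases hy'' with rfl | rfl <;> rcases hz'' with rfl | rfl
      · exact hyz
      · exact hyz'
      · intro h; exact hyz' (by rw [← h, neg_neg])
      · intro h; exact hyz (neg_injective h)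
    have n2 : z' ≠ x := by
      rcases hz'' with rfl | rfl
      · exact Ne.symm hxz
      · exact Ne.symm hxz'
    have n3 : y' ≠ x := by
      rcases hy'' with rfl | rfl
      · exact Ne.symm hxy
      · exact Ne.symm hxy'
    refine hG y' hy' z' hz' x hx n1 n2 n3
      (ar_eq_zero_of_dep (a := -|s|) (b := -|t|) (c := 1) (by linarith) ?_ one_ne_zero)
    rw [he, ey, ez, neg_smul, neg_smul, one_smul]
    abel
  · rintro ⟨s, t, hst, he⟩
    exact inPar_of_lt hst he

theorem nest_pt {I : Type*} (p : I → V) (a b c : I) (σ τ ρ : ℤˣ) :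
    (∃ s t : ℝ, |s| + |t| < 1 ∧ pt p (a, σ) = s • pt p (b, τ) + t • pt p (c, ρ)) ↔
      Nest p a b c := by
  constructor
  · rintro ⟨s, t, h, he⟩
    refine ⟨sg σ * s * sg τ, sg σ * t * sg ρ, ?_, ?_⟩
    · rw [abs_mul, abs_mul, abs_mul, abs_mul, abs_sg, abs_sg, abs_sg]
      simpa using h
    · have h1 := congrArg (fun w => sg σ • w) he
      simp only [pt, smul_add, smul_smul, sg_mul_self, one_smul] at h1
      rw [h1]
      congr 2 <;> ring
  · rintro ⟨x, y, h, he⟩
    refine ⟨sg σ * x * sg τ, sg σ * y * sg ρ, ?_, ?_⟩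
    · rw [abs_mul, abs_mul, abs_mul, abs_mul, abs_sg, abs_sg, abs_sg]
      simpa using h
    · simp only [pt]
      rw [he, smul_add, smul_smul, smul_smul, smul_smul, smul_smul, mul_assoc (sg σ * x),
        sg_mul_self, mul_one, mul_assoc (sg σ * y), sg_mul_self, mul_one]

theorem allNested_iff {P : Finset V} (hS : Sym P) (hG : GPV P) {m : ℕ} (hP : P.card = 2 * m) :
    AllNested P ↔ ∀ a b c : half P, a ≠ b → a ≠ c → b ≠ c → Nested (pp P) a b c := by
  have h0 := zero_notMem hS hG hP
  have hneg : ∀ (a b : half P) (σ τ : ℤˣ), a ≠ b → pt (pp P) (a, σ) ≠ pt (pp P) (b, τ) ∧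
      pt (pp P) (a, σ) ≠ - pt (pp P) (b, τ) := by
    intro a b σ τ hab
    constructor
    · intro h
      exact hab (congrArg Prod.fst (pt_pp_inj h))
    · intro h
      have h1 : - pt (pp P) (b, τ) = pt (pp P) (b, -τ) := by
        simp only [pt, sg_neg, neg_smul]
      rw [h1] at h
      exact hab (congrArg Prod.fst (pt_pp_inj h))
  constructor
  · intro h a b c hab hac hbc
    have ma := pt_pp_mem hS (a, 1)
    have mb := pt_pp_mem hS (b, 1)
    have mc := pt_pp_mem hS (c, 1)
    have n1 := hneg a b 1 1 hab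
    have n2 := hneg b c 1 1 hbc
    have n3 := hneg a c 1 1 hac
    have n1' := hneg b a 1 1 (Ne.symm hab)
    have n2' := hneg c b 1 1 (Ne.symm hbc)
    have n3' := hneg c a 1 1 (Ne.symm hac)
    rcases h _ ma _ mb _ mc n1.1 n1.2 n2.1 n2.2 n3.1 n3.2 with h | h | h
    · left
      rw [inPar_iff hG hS ma mb mc n1.1 n1.2 n2.1 n2.2 n3.1 n3.2, nest_pt] at h
      exact h
    · right; left
      rw [inPar_iff hG hS mb mc ma n2.1 n2.2 n3'.1 n3'.2 n1'.1 n1'.2, nest_pt] at h
      exact h
    · right; right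
      rw [inPar_iff hG hS mc ma mb n3'.1 n3'.2 n1.1 n1.2 n2'.1 n2'.2, nest_pt] at h
      exact h
  · intro h x hx y hy z hz hxy hxy' hyz hyz' hxz hxz'
    rw [← map_emb hS h0] at hx hy hz
    obtain ⟨⟨a, σ⟩, -, rfl⟩ := mem_map.mp hx
    obtain ⟨⟨b, τ⟩, -, rfl⟩ := mem_map.mp hy
    obtain ⟨⟨c, ρ⟩, -, rfl⟩ := mem_map.mp hz
    have hpm : ∀ (a b : half P) (σ τ : ℤˣ), emb P (a, σ) ≠ emb P (b, τ) →
        emb P (a, σ) ≠ - emb P (b, τ) → a ≠ b := by
      rintro a b σ τ h1 h2 rfl
      have h3 : - emb P (a, τ) = emb P (a, -τ) := by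
        show - pt (pp P) (a, τ) = pt (pp P) (a, -τ)
        simp only [pt, sg_neg, neg_smul]
      rw [h3] at h2
      rcases Int.units_eq_one_or σ with rfl | rfl <;> rcases Int.units_eq_one_or τ with rfl | rfl
      · exact h1 rfl
      · exact h2 (by rw [neg_neg])
      · exact h2 rfl
      · exact h1 rfl
    have hab := hpm a b σ τ hxy hxy'
    have hbc := hpm b c τ ρ hyz hyz'
    have hac := hpm a c σ ρ hxz hxz'
    rcases h a b c hab hac hbc with h | h | h
    · left
      obtain ⟨s, t, hst, he⟩ := (nest_pt (pp P) a b c σ τ ρ).mpr h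
      exact inPar_of_lt hst he
    · right; left
      obtain ⟨s, t, hst, he⟩ := (nest_pt (pp P) b c a τ ρ σ).mpr h
      exact inPar_of_lt hst he
    · right; right
      obtain ⟨s, t, hst, he⟩ := (nest_pt (pp P) c a b ρ σ τ).mpr h
      exact inPar_of_lt hst he

/-- The lower bound. -/
theorem minVal_le {P : Finset V} (hS : Sym P) (hG : GPV P) {m : ℕ} (hP : P.card = 2 * m) :
    minVal m ≤ convexQuads P := by
  classical
  have h1 := convexQuads_add hS hG hP
  have h2 := NB_le (gp_pp hS hG)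
  rw [card_half hS (zero_notMem hS hG hP) hP] at h2
  have h3 := two_minVal m
  omega

/-- Equality. -/
theorem eq_minVal_iff {P : Finset V} (hS : Sym P) (hG : GPV P) {m : ℕ} (hP : P.card = 2 * m) :
    convexQuads P = minVal m ↔ AllNested P := by
  classical
  have h1 := convexQuads_add hS hG hP
  have h2 := NB_eq_iff (gp_pp hS hG)
  rw [card_half hS (zero_notMem hS hG hP) hP] at h2
  have h3 := two_minVal m
  rw [allNested_iff hS hG hP, ← h2]
  omega

end Pool.Agent.CSym
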